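import Pool.Agent.HStar.Asm

/-!
# Reflection `w ↦ -w` for the pointwise bound
-/

set_option autoImplicit false

namespace Pool.Agent.HStar

open MeasureTheory Set Filter Topology Complex ComplexConjugate Pool.Agent.HHalf
  Pool.Agent.ConjInterp Function Polynomial

theorem om_zL_neg {N : ℕ} (L : Fin N → ℂ) (w : ℂ) :
    (om (zL fun a => -L a)).eval w = (om (zL L)).eval (-w) := by
  rw [om_zL, om_zL, Polynomial.eval_prod, Polynomial.eval_prod]
  refine Finset.prod_congr rfl fun a _ => ?_
  unfold pr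
  simp only [Polynomial.eval_mul, Polynomial.eval_sub, Polynomial.eval_X, Polynomial.eval_C,
    map_neg, Polynomial.eval_neg]
  ring

/-- The pointwise bound is invariant under `w ↦ -w`. -/
theorem PW_neg {N : ℕ} {L : Fin N → ℂ} {k : ℕ} {x : ℝ} (h : PW (fun a => -L a) k (-x)) :
    PW L k x := by
  intro g hg hb
  have hF : (fun w => (om (zL fun a => -L a)).eval w * g (-w)) =
      fun w => (fun w => (om (zL L)).eval w * g w) (-w) := by
    funext w
    rw [om_zL_neg]
  have hO : (fun w => (om (zL fun a => -L a)).eval w) =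
      fun w => (fun w => (om (zL L)).eval w) (-w) := by
    funext w
    rw [om_zL_neg]
  have hnorm : ∀ (m : ℕ) (f : ℂ → ℂ) (a : ℂ),
      ‖iteratedDeriv m (fun w => f (-w)) a‖ = ‖iteratedDeriv m f (-a)‖ := by
    intro m f a
    rw [iteratedDeriv_comp_neg, norm_smul]
    simp
  obtain ⟨y, hy, hxy⟩ := h (fun w => g (-w)) (hg.comp differentiable_neg) (by
    intro w hw
    rw [hF, hnorm _ (fun w => (om (zL L)).eval w * g w)]
    exact hb (-w) (by rwa [norm_neg]))
  refine ⟨-y, ⟨by linarith [hy.2], by linarith [hy.1]⟩, ?_⟩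
  rw [hF, hO, hnorm _ (fun w => (om (zL L)).eval w * g w),
    hnorm _ (fun w => (om (zL L)).eval w)] at hxy
  have e1 : (-((-x : ℝ) : ℂ)) = (x : ℂ) := by push_cast; ring
  have e2 : (-(y : ℂ)) = ((-y : ℝ) : ℂ) := by push_cast; ring
  rw [e1, e2] at hxy
  exact hxy

end Pool.Agent.HStar
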