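import Pool.Agent.HSix.RealD

/-!
# The four inequalities for three pairs
-/

set_option autoImplicit false

namespace Pool.Agent.HSix

theorem hasDerivAt_qq (a r y : ℝ) : HasDerivAt (fun y => qq y a r) (2 * (y - a)) y := by
  unfold qq
  have h := (((hasDerivAt_id y).fun_pow 2).fun_sub ((hasDerivAt_id y).const_mul (2 * a))).add_const r
  refine h.congr_deriv ?_
  simp
  ring

section

variable {a1 a2 a3 r1 r2 r3 : ℝ}

theorem hasDerivAt_h0 (y : ℝ) : HasDerivAt (fun y => h0 y a1 a2 a3 r1 r2 r3)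
    (h1 y a1 a2 a3 r1 r2 r3) y := by
  unfold h0
  have h := ((hasDerivAt_qq a1 r1 y).fun_mul (hasDerivAt_qq a2 r2 y)).fun_mul
    (hasDerivAt_qq a3 r3 y)
  refine h.congr_deriv ?_
  unfold h1
  ring

theorem hasDerivAt_lin (a y : ℝ) : HasDerivAt (fun y => y - a) 1 y := (hasDerivAt_id y).sub_const a

theorem hasDerivAt_h1 (y : ℝ) : HasDerivAt (fun y => h1 y a1 a2 a3 r1 r2 r3)
    (2 * h2 y a1 a2 a3 r1 r2 r3) y := by
  unfold h1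
  have q1 := hasDerivAt_qq a1 r1 y
  have q2 := hasDerivAt_qq a2 r2 y
  have q3 := hasDerivAt_qq a3 r3 y
  have h := ((((hasDerivAt_lin a1 y).fun_mul (q2.fun_mul q3)).fun_add
    ((hasDerivAt_lin a2 y).fun_mul (q1.fun_mul q3))).fun_add
    ((hasDerivAt_lin a3 y).fun_mul (q1.fun_mul q2))).const_mul 2
  refine h.congr_deriv ?_
  unfold h2
  ring

variable {x M : ℝ}

theorem h0_nonneg (g1 : a1 ^ 2 ≤ r1) (g2 : a2 ^ 2 ≤ r2) (g3 : a3 ^ 2 ≤ r3) :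
    0 ≤ h0 x a1 a2 a3 r1 r2 r3 := by
  unfold h0
  exact mul_nonneg (mul_nonneg (qq_nonneg g1) (qq_nonneg g2)) (qq_nonneg g3)

theorem le_one_of {a r : ℝ} (g : a ^ 2 ≤ r) (f : r ≤ 1) : -1 ≤ a ∧ a ≤ 1 := by
  have : a ^ 2 ≤ 1 ^ 2 := by linarith
  exact abs_le_of_sq_le_sq' this (by norm_num)

/-- Case B: `h_0 ≤ s ψ M`. -/
theorem h0_caseB (hx0 : 0 ≤ x) (hx1 : x ≤ 1) (g1 : a1 ^ 2 ≤ r1) (g2 : a2 ^ 2 ≤ r2)
    (g3 : a3 ^ 2 ≤ r3) (f1 : r1 ≤ 1) (f2 : r2 ≤ 1) (f3 : r3 ≤ 1) (ha1 : (1 + x) / 2 ≤ a1)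
    (hM : 9 / 4 ≤ M) (hp : h2 1 a1 a2 a3 r1 r2 r3 ≤ M) :
    h0 x a1 a2 a3 r1 r2 r3 ≤ (1 - x) * psi (1 - x) * M := by
  obtain ⟨k1, k1'⟩ := le_one_of g1 f1
  obtain ⟨k2, k2'⟩ := le_one_of g2 f2
  obtain ⟨k3, k3'⟩ := le_one_of g3 f3
  have hs0 : 0 ≤ 1 - x := by linarith
  have n1 := qq_nonneg (x := x) g1
  have n2 := qq_nonneg (x := x) g2
  have n3 := qq_nonneg (x := x) g3
  have q1s := qq_right (r := r1) hx0 f1 ha1
  have c2 := qq_le' (x := x) (a := a2) hx1 f2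
  have c3 := qq_le' (x := x) (a := a3) hx1 f3
  have hu := (h2_one_ge g1 g2 g3 k1' k2' k3').trans hp
  set u2 := 1 - 2 * a2 + r2 with hu2
  set u3 := 1 - 2 * a3 + r3 with hu3
  have u20 : 0 ≤ u2 := by rw [hu2]; nlinarith [sq_nonneg (1 - a2)]
  have u30 : 0 ≤ u3 := by rw [hu3]; nlinarith [sq_nonneg (1 - a3)]
  have u24 : u2 ≤ 4 := by rw [hu2]; linarith
  have u34 : u3 ≤ 4 := by rw [hu3]; linarith
  have d1 : qq x a2 r2 * qq x a3 r3 ≤ (x * u2 + (1 - x) ^ 2) * (x * u3 + (1 - x) ^ 2) :=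
    mul_le_mul c2 c3 n3 (n2.trans c2)
  have d2 : (x * u2 + (1 - x) ^ 2) * (x * u3 + (1 - x) ^ 2) ≤ psi (1 - x) * M := by
    unfold psi
    have e1 : x ^ 2 * (u2 * u3) ≤ x ^ 2 * M := mul_le_mul_of_nonneg_left hu (sq_nonneg x)
    have e2 : x * (1 - x) ^ 2 * (u2 + u3) ≤ x * (1 - x) ^ 2 * 8 :=
      mul_le_mul_of_nonneg_left (by linarith) (mul_nonneg hx0 (sq_nonneg _))
    have e3 : 0 ≤ 8 * x * (1 - x) ^ 2 + (1 - x) ^ 4 := by positivity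
    have e4 : (8 * x * (1 - x) ^ 2 + (1 - x) ^ 4) * (9 / 4) ≤
        (8 * x * (1 - x) ^ 2 + (1 - x) ^ 4) * M := mul_le_mul_of_nonneg_left hM e3
    have e5 : (x * u2 + (1 - x) ^ 2) * (x * u3 + (1 - x) ^ 2) =
        x ^ 2 * (u2 * u3) + x * (1 - x) ^ 2 * (u2 + u3) + (1 - x) ^ 4 := by ring
    have e6 : ((1 - (1 - x)) ^ 2 + 4 / 9 * (8 * (1 - (1 - x)) * (1 - x) ^ 2 + (1 - x) ^ 4)) * M =
        x ^ 2 * M + 4 / 9 * ((8 * x * (1 - x) ^ 2 + (1 - x) ^ 4) * M) := by ring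
    rw [e5, e6]
    linarith
  unfold h0
  calc qq x a1 r1 * qq x a2 r2 * qq x a3 r3 = qq x a1 r1 * (qq x a2 r2 * qq x a3 r3) := by ring
    _ ≤ (1 - x) * (psi (1 - x) * M) :=
        mul_le_mul q1s (d1.trans d2) (mul_nonneg n2 n3) hs0
    _ = _ := by ring

/-- THE REAL THEOREM. -/
theorem real_main (hx0 : 0 ≤ x) (hx1 : x ≤ 1) (g1 : a1 ^ 2 ≤ r1) (g2 : a2 ^ 2 ≤ r2)
    (g3 : a3 ^ 2 ≤ r3) (f1 : r1 ≤ 1) (f2 : r2 ≤ 1) (f3 : r3 ≤ 1) (ha1 : (1 + x) / 2 ≤ a1)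
    (ha2 : a2 ≤ 0) (hL : 2 ≤ 3 - a1 - a2 - a3) (hL' : 3 - a1 - a2 - a3 ≤ 4)
    (hM : ∀ y ∈ Set.Icc (-1:ℝ) 1, h2 y a1 a2 a3 r1 r2 r3 ≤ M) :
    Four (1 - x) (2 * (3 - a1 - a2 - a3) + (1 - x)) M (h0 x a1 a2 a3 r1 r2 r3)
      (h1 x a1 a2 a3 r1 r2 r3) := by
  obtain ⟨k1, k1'⟩ := le_one_of g1 f1
  obtain ⟨k2, k2'⟩ := le_one_of g2 f2
  obtain ⟨k3, k3'⟩ := le_one_of g3 f3
  have hs0 : 0 ≤ 1 - x := by linarith
  have hs1 : 1 - x ≤ 1 := by linarith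
  have hp := hM 1 ⟨by norm_num, le_rfl⟩
  have hm := hM (-1) ⟨le_rfl, by norm_num⟩
  rcases le_total (3 - a1 - a2 - a3) (5 / 2) with h | h
  · have ht : -1 / 2 ≤ a2 + a3 := by linarith
    refine caseA_four (W := WW x) (Q := ((1 - x) ^ 2 + 5 / 2 * x) ^ 2) hs0 hs1 (by linarith)
      (by linarith) ?_ ?_ (Q_le_W hx0 hx1) (W_le g1 g2 g3 hx0 ha1 k2 k3 ht hm)
      (h1_caseA hx0 hx1 g1 g2 g3 f1 f2 f3 ha1 k1' k2 ha2 k3 k3' ht) ?_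
    · unfold WW; ring
    · ring
    · unfold h0
      calc qq x a1 r1 * qq x a2 r2 * qq x a3 r3 = qq x a1 r1 * (qq x a2 r2 * qq x a3 r3) := by ring
        _ ≤ (1 - x) * ((1 - x) ^ 2 + 5 / 2 * x) ^ 2 :=
          mul_le_mul (qq_right hx0 f1 ha1) (qq_prod_le hx0 hx1 g2 g3 f2 f3 k2' k3' ht)
            (mul_nonneg (qq_nonneg g2) (qq_nonneg g3)) hs0
  · have hM94 : 9 / 4 ≤ M := nine_four g1 g2 g3 (by linarith) k1' k2 ha2 k3 k3' hp hm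
    have hM0 : 0 < M := by linarith
    have hB := h0_caseB hx0 hx1 g1 g2 g3 f1 f2 f3 ha1 hM94 hp
    refine caseB_four hs0 hs1 (by linarith) (by linarith) hM0.le hB ?_
    refine sq_deriv_le (f := fun y => h0 y a1 a2 a3 r1 r2 r3)
      (f' := fun y => h1 y a1 a2 a3 r1 r2 r3) (f'' := fun y => 2 * h2 y a1 a2 a3 r1 r2 r3)
      (fun y => hasDerivAt_h0 y) (fun y => hasDerivAt_h1 y) (a := -1) (b := 1) hM0 ?_ ?_
      ⟨by linarith, hx1⟩ (by linarith) ?_ ?_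
    · intro y hy
      have := hM y hy
      linarith
    · intro y _
      exact h0_nonneg g1 g2 g3
    · simp only [h1]
      have n1 := qq_nonneg (x := 1) g1
      have n2 := qq_nonneg (x := 1) g2
      have n3 := qq_nonneg (x := 1) g3
      have t1 := mul_nonneg (show 0 ≤ 1 - a1 by linarith) (mul_nonneg n2 n3)
      have t2 := mul_nonneg (show 0 ≤ 1 - a2 by linarith) (mul_nonneg n1 n3)
      have t3 := mul_nonneg (show 0 ≤ 1 - a3 by linarith) (mul_nonneg n1 n2)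
      linarith
    · have e1 := polyP5 hs0 hs1
      have e2 : (1 - x) * psi (1 - x) * M ≤ 1 * M := by
        apply mul_le_mul_of_nonneg_right _ hM0.le
        unfold psi
        exact e1
      have e3 : 1 * M ≤ M * (x - -1) ^ 2 := by nlinarith
      linarith

end

end Pool.Agent.HSix
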