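import Pool.Agent.HStar.Asm
import Pool.Agent.HSix.RealE

/-!
# The polynomial of three pairs
-/

set_option autoImplicit false

namespace Pool.Agent.HSix

open Polynomial Pool.Agent.HStar

theorem fin3_third : ∀ i1 i2 : Fin 3, i1 ≠ i2 → ∃ i3 : Fin 3, i3 ≠ i1 ∧ i3 ≠ i2 ∧
    (Finset.univ : Finset (Fin 3)) = {i1, i2, i3} := by decide

theorem sum3 {R : Type*} [AddCommMonoid R] {i1 i2 i3 : Fin 3} (h12 : i1 ≠ i2) (h31 : i3 ≠ i1)
    (h32 : i3 ≠ i2) (hu : (Finset.univ : Finset (Fin 3)) = {i1, i2, i3}) (f : Fin 3 → R) :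
    ∑ a, f a = f i1 + (f i2 + f i3) := by
  rw [hu, Finset.sum_insert (by simp [h12, h31.symm]), Finset.sum_pair h32.symm]

theorem prod3 {R : Type*} [CommMonoid R] {i1 i2 i3 : Fin 3} (h12 : i1 ≠ i2) (h31 : i3 ≠ i1)
    (h32 : i3 ≠ i2) (hu : (Finset.univ : Finset (Fin 3)) = {i1, i2, i3}) (f : Fin 3 → R) :
    ∏ a, f a = f i1 * (f i2 * f i3) := by
  rw [hu, Finset.prod_insert (by simp [h12, h31.symm]), Finset.prod_pair h32.symm]

section

variable {L : Fin 3 → ℂ} {i1 i2 i3 : Fin 3}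

theorem omR_eval (h12 : i1 ≠ i2) (h31 : i3 ≠ i1) (h32 : i3 ≠ i2)
    (hu : (Finset.univ : Finset (Fin 3)) = {i1, i2, i3}) (y : ℝ) :
    (omR L).eval y = h0 y (L i1).re (L i2).re (L i3).re (Complex.normSq (L i1))
      (Complex.normSq (L i2)) (Complex.normSq (L i3)) := by
  unfold omR
  rw [prod3 h12 h31 h32 hu]
  unfold h0 qq
  simp only [Polynomial.eval_mul, Polynomial.eval_add, Polynomial.eval_pow, Polynomial.eval_sub,
    Polynomial.eval_X, Polynomial.eval_C, Complex.normSq_apply]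
  ring

theorem omR_eval1 (h12 : i1 ≠ i2) (h31 : i3 ≠ i1) (h32 : i3 ≠ i2)
    (hu : (Finset.univ : Finset (Fin 3)) = {i1, i2, i3}) (y : ℝ) :
    (derivative (omR L)).eval y = h1 y (L i1).re (L i2).re (L i3).re (Complex.normSq (L i1))
      (Complex.normSq (L i2)) (Complex.normSq (L i3)) := by
  have e : (fun y => (omR L).eval y) = fun y => h0 y (L i1).re (L i2).re (L i3).re
      (Complex.normSq (L i1)) (Complex.normSq (L i2)) (Complex.normSq (L i3)) :=
    funext fun y => omR_eval h12 h31 h32 hu y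
  have h := (omR L).hasDerivAt y
  rw [e] at h
  exact h.unique (hasDerivAt_h0 y)

theorem omR_eval2 (h12 : i1 ≠ i2) (h31 : i3 ≠ i1) (h32 : i3 ≠ i2)
    (hu : (Finset.univ : Finset (Fin 3)) = {i1, i2, i3}) (y : ℝ) :
    (hasseDeriv 2 (omR L)).eval y = h2 y (L i1).re (L i2).re (L i3).re (Complex.normSq (L i1))
      (Complex.normSq (L i2)) (Complex.normSq (L i3)) := by
  have e : (fun y => (derivative (omR L)).eval y) = fun y => h1 y (L i1).re (L i2).re (L i3).re
      (Complex.normSq (L i1)) (Complex.normSq (L i2)) (Complex.normSq (L i3)) :=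
    funext fun y => omR_eval1 h12 h31 h32 hu y
  have h := (derivative (omR L)).hasDerivAt y
  rw [e] at h
  have h' := h.unique (hasDerivAt_h1 y)
  have h3 := Polynomial.factorial_smul_hasseDeriv (R := ℝ) 2
  have h4 := congrFun h3 (omR L)
  have h5 := congrArg (fun p : ℝ[X] => p.eval y) h4
  simp only [LinearMap.smul_apply, Pi.smul_apply, Function.iterate_succ, Function.iterate_zero,
    Function.comp_apply, id_eq, Polynomial.eval_smul, Nat.factorial_two] at h5
  rw [h'] at h5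
  simp only [nsmul_eq_mul, Nat.cast_ofNat] at h5
  linarith

end

end Pool.Agent.HSix
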