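import Pool.Agent.HSix.Pole
import Pool.Agent.HSix.Poly
import Pool.Agent.HSix.Refl

/-!
# Six nodes, order two: the middle region
-/

set_option autoImplicit false

namespace Pool.Agent.HSix

open MeasureTheory Set Filter Topology Complex ComplexConjugate Pool.Agent.HHalf Pool.Agent.HStar
  Polynomial

theorem sum_zL {N n : ℕ} (L : Fin N → ℂ) (e : Fin n ≃ Fin N × Bool) :
    ∑ i, (zL L ∘ e) i = ((∑ a, 2 * (L a).re : ℝ) : ℂ) := by
  have h1 : ∑ i, (zL L ∘ e) i = ∑ i, zL L i := Equiv.sum_comp e (zL L)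
  rw [h1, Fintype.sum_prod_type]
  push_cast
  refine Finset.sum_congr rfl fun a _ => ?_
  rw [Fintype.sum_bool]
  unfold zL
  simp only [if_true, Bool.false_eq_true, if_false]
  apply Complex.ext <;> simp
  ring

theorem re_sq_le (z : ℂ) : z.re ^ 2 ≤ Complex.normSq z := by
  rw [Complex.normSq_apply]; nlinarith [mul_self_nonneg z.im]

theorem normSq_le_one {z : ℂ} (hz : ‖z‖ ≤ 1) : Complex.normSq z ≤ 1 := by
  rw [Complex.normSq_eq_norm_sq]
  exact pow_le_one₀ (norm_nonneg _) hz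

theorem pw_six_two_right {L : Fin 3 → ℂ} (hL : ∀ a, ‖L a‖ ≤ 1) {x : ℝ} (hx0 : 0 ≤ x)
    (hx1 : x ≤ 1) (hp : 2 < ∑ a, (1 + (L a).re)) (hm : 2 < ∑ a, (1 - (L a).re))
    (hl : ∃ a, (L a).re < (x - 1) / 2) (hr : ∃ a, (1 + x) / 2 < (L a).re) : PW L 2 x := by
  obtain ⟨i2, hi2⟩ := hl
  obtain ⟨i1, hi1⟩ := hr
  have h12 : i1 ≠ i2 := by
    intro h
    rw [h] at hi1
    linarith
  obtain ⟨i3, h31, h32, hu⟩ := fin3_third i1 i2 h12
  have hcard : Fintype.card (Fin (2 * 3)) = Fintype.card (Fin 3 × Bool) := by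
    simp only [Fintype.card_fin, Fintype.card_prod, Fintype.card_bool]
  refine pw_of_star hL ⟨by linarith, hx1⟩ (Fintype.equivOfCardEq hcard) (ρ0 := 0) zero_lt_one ?_
  intro M hM ξ _ hξ
  have hs1 : ∑ a, (1 + (L a).re) = 3 + ((L i1).re + (L i2).re + (L i3).re) := by
    rw [sum3 h12 h31 h32 hu]; ring
  have hs2 : ∑ a, (1 - (L a).re) = 3 - (L i1).re - (L i2).re - (L i3).re := by
    rw [sum3 h12 h31 h32 hu]; ring
  rw [hs1] at hp
  rw [hs2] at hm
  set a1 := (L i1).re with ha1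
  set a2 := (L i2).re with ha2
  set a3 := (L i3).re with ha3
  have g1 := re_sq_le (L i1)
  have g2 := re_sq_le (L i2)
  have g3 := re_sq_le (L i3)
  have f1 := normSq_le_one (hL i1)
  have f2 := normSq_le_one (hL i2)
  have f3 := normSq_le_one (hL i3)
  have hMy : ∀ y ∈ Set.Icc (-1:ℝ) 1, h2 y a1 a2 a3 (Complex.normSq (L i1))
      (Complex.normSq (L i2)) (Complex.normSq (L i3)) ≤ M := by
    intro y hy
    have := hM y hy
    rw [omR_eval2 h12 h31 h32 hu] at this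
    exact (abs_le.1 this).2
  obtain ⟨k1, k1'⟩ := le_one_of g1 f1
  obtain ⟨k2, k2'⟩ := le_one_of g2 f2
  obtain ⟨k3, k3'⟩ := le_one_of g3 f3
  have hM94 : 9 / 4 ≤ M := nine_four g1 g2 g3 (by linarith) k1' k2 (by linarith) k3 k3'
    (hMy 1 ⟨by norm_num, le_rfl⟩) (hMy (-1) ⟨le_rfl, by norm_num⟩)
  have hfour := real_main hx0 hx1 g1 g2 g3 f1 f2 f3 (by linarith) (by linarith)
    (by linarith) (by linarith) hMy
  have e0 : (fun i => (hasseDeriv i (omR L)).eval x) 0 = h0 x a1 a2 a3 (Complex.normSq (L i1))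
      (Complex.normSq (L i2)) (Complex.normSq (L i3)) := by
    simp only [hasseDeriv_zero']
    exact omR_eval h12 h31 h32 hu x
  have e1 : (fun i => (hasseDeriv i (omR L)).eval x) 1 = h1 x a1 a2 a3 (Complex.normSq (L i1))
      (Complex.normSq (L i2)) (Complex.normSq (L i3)) := by
    simp only [hasseDeriv_one']
    exact omR_eval1 h12 h31 h32 hu x
  rw [← e0, ← e1] at hfour
  have hz : ∀ i, ‖(zL L ∘ (Fintype.equivOfCardEq hcard)) i‖ ≤ 1 := fun i => norm_zL hL _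
  refine star62 (z := zL L ∘ (Fintype.equivOfCardEq hcard)) hz
    (be := 2 * (3 - a1 - a2 - a3) + (1 - x)) hx0 hx1 ?_ (by linarith) (by linarith)
    (e := fun i => (hasseDeriv i (omR L)).eval x) (by linarith) ?_ hfour hξ
  · rw [sum_zL, sum3 h12 h31 h32 hu]
    congr 1
    ring
  · have h0n := h0_nonneg (x := x) g1 g2 g3
    rw [← ha1, ← ha2, ← ha3, ← e0] at h0n
    exact h0n

/-- **Six nodes, order two**: the pointwise bound in the middle region, all `x`. -/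
theorem pw_six_two {L : Fin 3 → ℂ} (hL : ∀ a, ‖L a‖ ≤ 1) {x : ℝ} (hx : x ∈ Icc (-1:ℝ) 1)
    (hp : 2 < ∑ a, (1 + (L a).re)) (hm : 2 < ∑ a, (1 - (L a).re))
    (hl : ∃ a, (L a).re < (x - 1) / 2) (hr : ∃ a, (1 + x) / 2 < (L a).re) : PW L 2 x := by
  rcases le_total 0 x with h | h
  · exact pw_six_two_right hL h hx.2 hp hm hl hr
  · apply PW_neg
    obtain ⟨i2, hi2⟩ := hl
    obtain ⟨i1, hi1⟩ := hr
    refine pw_six_two_right (fun a => by rw [norm_neg]; exact hL a) (by linarith)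
      (by linarith [hx.1]) ?_ ?_ ⟨i1, ?_⟩ ⟨i2, ?_⟩
    · refine lt_of_lt_of_eq hm (Finset.sum_congr rfl fun a _ => ?_)
      rw [Complex.neg_re]; ring
    · refine lt_of_lt_of_eq hp (Finset.sum_congr rfl fun a _ => ?_)
      rw [Complex.neg_re]; ring
    · rw [Complex.neg_re]; linarith
    · rw [Complex.neg_re]; linarith

end Pool.Agent.HSix
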