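import Pool.Agent.HStar.Asm
import Pool.Agent.HStar.Cert
import Pool.Agent.HMidB.Low
import Pool.Agent.HSix.RealE

/-!
# The pole part for six nodes, order two
-/

set_option autoImplicit false

namespace Pool.Agent.HSix

open MeasureTheory Set Filter Topology Complex ComplexConjugate Pool.Agent.HHalf Pool.Agent.HStar

theorem kmom_zero {n : ℕ} {z : Fin n → ℂ} {x ξ : ℂ} (hz : ∀ i, ‖z i‖ ≤ 1) (hx : ‖x‖ ≤ 1)
    (hξ : ‖ξ‖ < 1) :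
    Pool.Agent.HMidB.kmom (mu (n + 1)) (Pool.Agent.HMidB.WW (n := n))
      (DD (Fin.cons x z : Fin (n + 1) → ℂ)) ξ 0 = 2 * KK z x 0 ξ - 1 := by
  have hm : Measurable (fun X : Fin (n + 1) → ℝ => 1 / (1 - ξ * ZZ z x X)) :=
    measurable_const.div (measurable_const.sub (measurable_const.mul (measurable_ZZ z x)))
  have hge : ∀ X : Fin (n + 1) → ℝ, (∀ i, 0 < X i) → 1 - ‖ξ‖ ≤ ‖1 - ξ * ZZ z x X‖ :=
    fun X hX => norm_one_sub_ge le_rfl (norm_ZZ_le hz hx hX)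
  have hi : Integrable (fun X : Fin (n + 1) → ℝ => 1 / (1 - ξ * ZZ z x X)) (mu (n + 1)) := by
    refine Integrable.mono' (integrable_const (1 / (1 - ‖ξ‖))) hm.aestronglyMeasurable ?_
    filter_upwards [mu_pos (n + 1)] with X hX
    have hc : 0 < 1 - ‖ξ‖ := by linarith
    rw [norm_div, norm_one]
    exact div_le_div_of_nonneg_left zero_le_one hc (hge X hX)
  have e1 : KK z x 0 ξ = ∫ X, 1 / (1 - ξ * ZZ z x X) ∂mu (n + 1) := by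
    unfold KK
    congr 1
    funext X
    simp
  rw [e1, ← integral_const_mul]
  unfold Pool.Agent.HMidB.kmom Pool.Agent.HMidB.kk
  have e2 : (fun X : Fin (n + 1) → ℝ => (Pool.Agent.HMidB.WW X : ℂ) ^ 0 *
      (2 * ξ ^ 0 / (1 - ξ * DD (Fin.cons x z : Fin (n + 1) → ℂ) X) ^ (0 + 1) -
        if (0:ℕ) = 0 then 1 else 0)) = fun X => 2 * (1 / (1 - ξ * ZZ z x X)) - 1 := by
    funext X
    simp only [pow_zero, zero_add, pow_one, mul_one, one_mul, if_true, ZZ]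
    ring
  rw [e2, integral_sub (hi.const_mul 2) (integrable_const _)]
  simp

/-- (P1) in terms of `K_0`. -/
theorem p_low {n : ℕ} {z : Fin n → ℂ} {x ξ : ℂ} (hz : ∀ i, ‖z i‖ ≤ 1) (hx : ‖x‖ ≤ 1)
    (hξ : ‖ξ‖ < 1) {m : ℂ} (hm : ((n : ℂ) + 1) * m = x + ∑ i, z i) :
    (1 - ‖m * ξ‖ ^ 2) * (2 * (KK z x 0 ξ).re) ≤
      2 * ((1 - m * ξ).re + ‖1 - m * ξ‖ / (n + 1)) * (2 * (KK z x 0 ξ).re - 1) := by
  have hz' : ∀ i, ‖(Fin.cons x z : Fin (n + 1) → ℂ) i‖ ≤ 1 := cons_le hz hx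
  have h := Pool.Agent.HMidB.p_lower' hz' hξ (Λ := 1 - m * ξ) (by
    rw [Fin.sum_univ_succ]
    simp only [Fin.cons_zero, Fin.cons_succ]
    rw [Finset.sum_sub_distrib, ← Finset.mul_sum]
    simp only [Finset.sum_const, Finset.card_univ, Fintype.card_fin, nsmul_eq_mul, mul_one]
    push_cast
    linear_combination (-ξ) * hm)
  rw [kmom_zero hz hx hξ] at h
  have e1 : (2 * KK z x 0 ξ - 1).re = 2 * (KK z x 0 ξ).re - 1 := by simp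
  rw [e1] at h
  have e2 : (1:ℂ) - (1 - m * ξ) = m * ξ := by ring
  rw [e2] at h
  push_cast at h
  calc (1 - ‖m * ξ‖ ^ 2) * (2 * (KK z x 0 ξ).re) =
      (1 - ‖m * ξ‖ ^ 2) * (1 + (2 * (KK z x 0 ξ).re - 1)) := by ring
    _ ≤ _ := h

theorem B_bound {x : ℝ} (hx0 : 0 ≤ x) {ξ u : ℂ} (hξ : ‖ξ‖ ≤ 1) (hu : ‖u‖ = 1) :
    4 * u.re - ((1 - ξ * x) * conj u ^ 2).re ≤ 3 + x := by
  have h1 : u.re ^ 2 + u.im ^ 2 = 1 := by
    have := Complex.sq_norm u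
    rw [hu, Complex.normSq_apply] at this
    nlinarith
  have h2 : (conj u ^ 2).re = 2 * u.re ^ 2 - 1 := by
    rw [pow_two, Complex.mul_re]
    simp only [Complex.conj_re, Complex.conj_im]
    nlinarith
  have h3 : (ξ * x * conj u ^ 2).re ≤ x := by
    refine (Complex.re_le_norm _).trans ?_
    rw [norm_mul, norm_mul, norm_pow, RCLike.norm_conj, hu, Complex.norm_real,
      Real.norm_of_nonneg hx0]
    nlinarith
  have h4 : (1 - ξ * x) * conj u ^ 2 = conj u ^ 2 - ξ * x * conj u ^ 2 := by ring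
  rw [h4, Complex.sub_re, h2]
  nlinarith [sq_nonneg (u.re - 1)]

theorem delta_bound {x : ℝ} (hx0 : 0 ≤ x) (hx1 : x ≤ 1) {ξ : ℂ} (hξ : ‖ξ‖ ≤ 1) :
    1 - x ^ 2 ≤ (1 - ξ * x).re * (2 - ‖1 - ξ * x‖) := by
  set m := ‖1 - ξ * x‖ with hm
  have hm0 : 0 ≤ m := norm_nonneg _
  have h1 : m ^ 2 = 2 * (1 - ξ * x).re - 1 + (‖ξ‖ * x) ^ 2 := by
    have e : ‖ξ‖ ^ 2 = ξ.re ^ 2 + ξ.im ^ 2 := by
      rw [Complex.sq_norm, Complex.normSq_apply]; ring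
    rw [hm, Complex.sq_norm, Complex.normSq_apply, mul_pow, e]
    simp
    ring
  have h2 : (‖ξ‖ * x) ^ 2 ≤ x ^ 2 := by
    rw [mul_pow]
    have : ‖ξ‖ ^ 2 ≤ 1 := pow_le_one₀ (norm_nonneg _) hξ
    nlinarith [sq_nonneg x]
  have h3 : ‖ξ * x‖ ≤ x := by
    rw [norm_mul, Complex.norm_real, Real.norm_of_nonneg hx0]
    nlinarith [norm_nonneg ξ]
  have h4 : m ≤ 1 + x := by
    have := norm_sub_le (1:ℂ) (ξ * x)
    rw [norm_one] at this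
    linarith
  have h5 : 1 - x ≤ m := by
    have := norm_sub_norm_le (1:ℂ) (ξ * x)
    rw [norm_one] at this
    linarith
  have h6 : (m ^ 2 + 1 - x ^ 2) / 2 ≤ (1 - ξ * x).re := by linarith
  have h7 : 0 ≤ 2 - m := by linarith
  have h8 := mul_le_mul_of_nonneg_right h6 h7
  have h9 : 0 ≤ m * (x ^ 2 - (1 - m) ^ 2) := by
    apply mul_nonneg hm0
    nlinarith
  nlinarith

/-- The linear bound of `1 + 1/p`. -/
theorem Pi_bound {μ : ℝ} (h1 : μ ^ 2 ≤ 33 / 100 * (1 - μ)) (h2 : μ ^ 2 ≤ 14 / 100 * (1 + μ))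
    (h3 : 0 < 1 - μ) (h4 : 0 < 1 + μ) {ξ : ℂ} (hξ : ‖ξ‖ ≤ 1) :
    2 * ((1 - (μ:ℂ) * ξ).re + ‖1 - (μ:ℂ) * ξ‖ / 7) ≤
      ((1 + ξ.re) / 2 * (1633 / 100 / (7 * (1 + μ))) +
        (1 - ξ.re) / 2 * (1614 / 100 / (7 * (1 - μ)))) * (1 - μ ^ 2) := by
  have hc1 : |ξ.re| ≤ 1 := (Complex.abs_re_le_norm ξ).trans hξ
  obtain ⟨hc, hc'⟩ := abs_le.1 hc1
  have e1 : (1 - (μ:ℂ) * ξ).re = 1 - μ * ξ.re := by simp
  have hn : ‖1 - (μ:ℂ) * ξ‖ ≤ 1 - μ * ξ.re + μ ^ 2 / 2 := by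
    have h0 : 0 ≤ 1 - μ * ξ.re + μ ^ 2 / 2 := by
      have : |μ * ξ.re| ≤ 1 := by
        rw [abs_mul]
        have : |μ| ≤ 1 := abs_le.2 ⟨by linarith, by linarith⟩
        nlinarith [abs_nonneg μ, abs_nonneg ξ.re]
      have := (abs_le.1 this).2
      nlinarith [sq_nonneg μ]
    apply abs_le_of_sq_le_sq' _ h0 |>.2
    have e2 : ‖ξ‖ ^ 2 = ξ.re ^ 2 + ξ.im ^ 2 := by
      rw [Complex.sq_norm, Complex.normSq_apply]; ring
    have e3 : ‖1 - (μ:ℂ) * ξ‖ ^ 2 = 1 - 2 * μ * ξ.re + μ ^ 2 * ‖ξ‖ ^ 2 := by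
      rw [e2, Complex.sq_norm, Complex.normSq_apply]
      simp
      ring
    rw [e3]
    have e4 : ‖ξ‖ ^ 2 ≤ 1 := pow_le_one₀ (norm_nonneg _) hξ
    have e5 : μ ^ 2 * ‖ξ‖ ^ 2 ≤ μ ^ 2 * 1 := mul_le_mul_of_nonneg_left e4 (sq_nonneg μ)
    nlinarith [mul_nonneg (sq_nonneg μ) (sq_nonneg (ξ.re - μ / 2))]
  have e6 : (1633 / 100 / (7 * (1 + μ))) * (1 - μ ^ 2) = 1633 / 700 * (1 - μ) := by
    field_simp
    ring
  have e7 : (1614 / 100 / (7 * (1 - μ))) * (1 - μ ^ 2) = 1614 / 700 * (1 + μ) := by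
    field_simp
    ring
  have e8 : ((1 + ξ.re) / 2 * (1633 / 100 / (7 * (1 + μ))) +
        (1 - ξ.re) / 2 * (1614 / 100 / (7 * (1 - μ)))) * (1 - μ ^ 2) =
      (1 + ξ.re) / 2 * (1633 / 700 * (1 - μ)) + (1 - ξ.re) / 2 * (1614 / 700 * (1 + μ)) := by
    rw [add_mul, mul_assoc, mul_assoc, e6, e7]
  rw [e8, e1]
  have f1 : 16 / 7 * (1 - μ) + μ ^ 2 / 7 ≤ 1633 / 700 * (1 - μ) := by linarith
  have f2 : 16 / 7 * (1 + μ) + μ ^ 2 / 7 ≤ 1614 / 700 * (1 + μ) := by linarith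
  have f3 := mul_le_mul_of_nonneg_left f1 (show 0 ≤ (1 + ξ.re) / 2 by linarith)
  have f4 := mul_le_mul_of_nonneg_left f2 (show 0 ≤ (1 - ξ.re) / 2 by linarith)
  have f5 : 2 * (1 - μ * ξ.re + ‖1 - (μ:ℂ) * ξ‖ / 7) ≤
      16 / 7 * (1 - μ * ξ.re) + μ ^ 2 / 7 := by linarith
  have f6 : 16 / 7 * (1 - μ * ξ.re) + μ ^ 2 / 7 =
      (1 + ξ.re) / 2 * (16 / 7 * (1 - μ) + μ ^ 2 / 7) +
      (1 - ξ.re) / 2 * (16 / 7 * (1 + μ) + μ ^ 2 / 7) := by ring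
  linarith

/-- The certificate for order two with the multiplier `1/P` of (R'1) only. -/
theorem cert2 {n : ℕ} {z : Fin (n + 1) → ℂ} {x ξ : ℂ} (hz : ∀ i, ‖z i‖ ≤ 1) (hx : ‖x‖ ≤ 1)
    (hξ : ‖ξ‖ < 1) {e : ℕ → ℝ} {M P D1 B : ℝ} (hM : 0 < M) (hP : 0 < P) (he0 : 0 ≤ e 0)
    (hB : ∀ u : ℂ, ‖u‖ = 1 → 0 ≤ u.re → 4 * u.re - ((1 - ξ * x) * conj u ^ 2).re ≤ B)
    (hD1 : D1 = (1 - ξ * x).re + ∑ i, (1 - ξ * z i).re + (1 - ξ * x).re - B)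
    (hI : P * |e 1| ≤ D1 * M)
    (hII : P * e 0 ≤ 2 * ((1 - ξ * x).re * (2 - ‖1 - ξ * x‖)) * M)
    (hp : 2 * (KK z x 0 ξ).re ≤ P * (2 * (KK z x 0 ξ).re - 1)) :
    |∑ j ∈ Finset.range 2, e (2 - (j + 1)) * (2 * (KK z x (j + 1) ξ).re)| ≤
      M * (2 * (KK z x 0 ξ).re - 1) := by
  refine cert hz hx hξ (k := 2) (by norm_num) (e := e) (M := M) hM.le
    (b := fun j => if j = 1 then |e 1| / M else if j = 2 then e 0 / M else 0)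
    (lam := fun j => if j = 1 then 1 / P else 0)
    (D := fun j => if j = 1 then D1
      else (1 - ξ * x).re + ∑ i, (1 - ξ * z i).re +
        j * (1 - ξ * x).re - ‖2 * (j:ℂ) + 2 - j * (1 - ξ * x)‖) (B := B) hB ?_ ?_ ?_ ?_ ?_ ?_ ?_ ?_
  · rw [if_pos rfl]; exact hD1
  · intro j hj hj2
    rw [if_neg (by omega)]
  · intro j hj hj2
    interval_cases j
    · simp only [if_true]
      rw [div_mul_cancel₀ _ hM.ne']
    · norm_num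
      rw [div_mul_cancel₀ _ hM.ne', abs_of_nonneg he0]
  · intro j
    split_ifs
    · positivity
    · positivity
    · exact le_rfl
  · intro j
    split_ifs
    · positivity
    · exact le_rfl
  · have h21 : ¬ ((2:ℕ) = 1) := by norm_num
    rw [if_pos rfl, if_neg h21, if_pos rfl, if_pos rfl, mul_zero, add_zero, one_div,
      inv_mul_eq_div, div_le_div_iff₀ hM hP]
    linarith
  · intro j hj hj2
    have hj' : j = 2 := by omega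
    subst hj'
    have h21 : ¬ ((2:ℕ) = 1) := by norm_num
    have h31 : ¬ ((2 + 1:ℕ) = 1) := by norm_num
    have h11 : (2 - 1 : ℕ) = 1 := by norm_num
    rw [if_neg h21, if_pos rfl, if_neg h31, if_neg h21, if_pos h11, mul_zero, add_zero,
      zero_mul, zero_add, mul_one_div, div_le_div_iff₀ hM hP]
    push_cast
    linarith
  · rw [if_pos rfl, one_div, inv_mul_le_iff₀ hP]
    exact hp

theorem P_mul_le {be c H r1 r2 : ℝ} (hap : 0 < 14 - be) (hbp : 0 < be) (hc : -1 ≤ c)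
    (hc' : c ≤ 1) (h1 : 1633 / 100 * H ≤ (14 - be) * r1) (h2 : 1614 / 100 * H ≤ be * r2) :
    ((1 + c) / 2 * (1633 / 100 / (14 - be)) + (1 - c) / 2 * (1614 / 100 / be)) * H ≤
      (1 + c) / 2 * r1 + (1 - c) / 2 * r2 := by
  have g1 : 1633 / 100 / (14 - be) * H ≤ r1 := by
    rw [div_mul_eq_mul_div, div_le_iff₀ hap]; linarith
  have g2 : 1614 / 100 / be * H ≤ r2 := by
    rw [div_mul_eq_mul_div, div_le_iff₀ hbp]; linarith
  have g3 := mul_le_mul_of_nonneg_left g1 (show 0 ≤ (1 + c) / 2 by linarith)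
  have g4 := mul_le_mul_of_nonneg_left g2 (show 0 ≤ (1 - c) / 2 by linarith)
  calc _ = (1 + c) / 2 * (1633 / 100 / (14 - be) * H) +
        (1 - c) / 2 * (1614 / 100 / be * H) := by ring
    _ ≤ _ := add_le_add g3 g4

theorem P_pos {be c : ℝ} (hap : 0 < 14 - be) (hbp : 0 < be) (hc : -1 ≤ c)
    (hc' : c ≤ 1) :
    0 < (1 + c) / 2 * (1633 / 100 / (14 - be)) + (1 - c) / 2 * (1614 / 100 / be) := by
  have p1 : 0 < 1633 / 100 / (14 - be) := by positivity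
  have p2 : 0 < 1614 / 100 / be := by positivity
  rcases le_total 0 c with h | h
  · have : 0 < (1 + c) / 2 := by linarith
    have : 0 ≤ (1 - c) / 2 := by linarith
    positivity
  · have : 0 < (1 - c) / 2 := by linarith
    have : 0 ≤ (1 + c) / 2 := by linarith
    positivity

/-- The lower bound of `p`, in the form `1 + p ≤ P p`. -/
theorem p_le_P {z : Fin 6 → ℂ} (hz : ∀ i, ‖z i‖ ≤ 1) {x be : ℝ} (hxn : ‖(x:ℂ)‖ ≤ 1)
    (hS : ∑ i, z i = ((7 - be - x : ℝ) : ℂ)) (hb1 : 4 ≤ be) (hb2 : be ≤ 9) {ξ : ℂ}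
    (hξ : ‖ξ‖ < 1) :
    2 * (KK z (x:ℂ) 0 ξ).re ≤ ((1 + ξ.re) / 2 * (1633 / 100 / (14 - be)) +
      (1 - ξ.re) / 2 * (1614 / 100 / be)) * (2 * (KK z (x:ℂ) 0 ξ).re - 1) := by
  obtain ⟨μ, rfl⟩ : ∃ μ, be = 7 * (1 - μ) := ⟨1 - be / 7, by ring⟩
  have hα : 14 - 7 * (1 - μ) = 7 * (1 + μ) := by ring
  have hμ1 : -2 / 7 ≤ μ := by linarith
  have hμ2 : μ ≤ 3 / 7 := by linarith
  have hq1 : μ ^ 2 ≤ 33 / 100 * (1 - μ) := by nlinarith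
  have hq2 : μ ^ 2 ≤ 14 / 100 * (1 + μ) := by nlinarith
  have hPi := Pi_bound hq1 hq2 (by linarith) (by linarith) hξ.le
  rw [hα]
  set P := (1 + ξ.re) / 2 * (1633 / 100 / (7 * (1 + μ))) +
    (1 - ξ.re) / 2 * (1614 / 100 / (7 * (1 - μ))) with hP
  have hp1 := p_low (z := z) (x := (x:ℂ)) hz hxn hξ (m := (μ:ℂ)) (by
    rw [hS]; push_cast; ring)
  have hp0 : 0 ≤ 2 * (KK z (x:ℂ) 0 ξ).re - 1 := KK0_nonneg hz hxn hξ
  have u0 : 0 < 1 - μ ^ 2 := by nlinarith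
  have u1 : 1 - μ ^ 2 ≤ 1 - ‖(μ:ℂ) * ξ‖ ^ 2 := by
    rw [norm_mul, Complex.norm_real, Real.norm_eq_abs, mul_pow, sq_abs]
    have : ‖ξ‖ ^ 2 ≤ 1 := pow_le_one₀ (norm_nonneg _) hξ.le
    nlinarith [sq_nonneg μ]
  have u2 : (1 - μ ^ 2) * (2 * (KK z (x:ℂ) 0 ξ).re) ≤
      (1 - ‖(μ:ℂ) * ξ‖ ^ 2) * (2 * (KK z (x:ℂ) 0 ξ).re) :=
    mul_le_mul_of_nonneg_right u1 (by linarith)
  have u3 : 2 * ((1 - (μ:ℂ) * ξ).re + ‖1 - (μ:ℂ) * ξ‖ / (((6:ℕ):ℝ) + 1)) *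
      (2 * (KK z (x:ℂ) 0 ξ).re - 1) ≤
      (P * (1 - μ ^ 2)) * (2 * (KK z (x:ℂ) 0 ξ).re - 1) := by
    apply mul_le_mul_of_nonneg_right _ hp0
    have : (((6:ℕ):ℝ) + 1) = 7 := by norm_num
    rw [this]
    exact hPi
  have u4 : (1 - μ ^ 2) * (2 * (KK z (x:ℂ) 0 ξ).re) ≤
      (1 - μ ^ 2) * (P * (2 * (KK z (x:ℂ) 0 ξ).re - 1)) := by
    refine u2.trans (hp1.trans (u3.trans (le_of_eq ?_)))
    ring
  exact le_of_mul_le_mul_left u4 u0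

/-- STAR for six nodes, order two, from the four inequalities. -/
theorem star62 {z : Fin 6 → ℂ} (hz : ∀ i, ‖z i‖ ≤ 1) {x be : ℝ} (hx0 : 0 ≤ x) (hx1 : x ≤ 1)
    (hS : ∑ i, z i = ((7 - be - x : ℝ) : ℂ)) (hb1 : 4 ≤ be) (hb2 : be ≤ 9) {e : ℕ → ℝ} {M : ℝ}
    (hM : 0 < M) (he0 : 0 ≤ e 0) (h4 : Four (1 - x) be M (e 0) (e 1)) {ξ : ℂ}
    (hξ : ‖ξ‖ < 1) :
    |∑ j ∈ Finset.range 2, e (2 - (j + 1)) * (2 * (KK z (x:ℂ) (j + 1) ξ).re)| ≤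
      M * (2 * (KK z (x:ℂ) 0 ξ).re - 1) := by
  have hxn : ‖(x:ℂ)‖ ≤ 1 := by rw [Complex.norm_real, Real.norm_of_nonneg hx0]; exact hx1
  have hc1 : |ξ.re| ≤ 1 := (Complex.abs_re_le_norm ξ).trans hξ.le
  obtain ⟨hc, hc'⟩ := abs_le.1 hc1
  obtain ⟨I1, I2, I3, I4⟩ := h4
  have hap : 0 < 14 - be := by linarith
  have hbp : 0 < be := by linarith
  refine cert2 (n := 5) (z := z) (x := (x:ℂ)) (ξ := ξ) hz hxn hξ
    (D1 := (1 + ξ.re) / 2 * (be - 4 + 2 * (1 - x)) + (1 - ξ.re) / 2 * (12 - be))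
    (B := 3 + x) hM (P_pos hap hbp hc hc') he0 (fun u hu _ => B_bound hx0 hξ.le hu) ?_ ?_ ?_
    (p_le_P hz hxn hS hb1 hb2 hξ)
  · have e1 : (1 - ξ * x).re = 1 - ξ.re * x := by simp
    have e2 : ∑ i, (1 - ξ * z i).re = 6 - ξ.re * (7 - be - x) := by
      rw [← Complex.re_sum, Finset.sum_sub_distrib, ← Finset.mul_sum, hS]
      simp
    rw [e1, e2]
    ring
  · have h := P_mul_le (H := |e 1|) (r1 := (be - 4 + 2 * (1 - x)) * M) (r2 := (12 - be) * M)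
      hap hbp hc hc' (by rw [← mul_assoc]; exact I1) (by rw [← mul_assoc]; exact I2)
    refine h.trans (le_of_eq ?_)
    ring
  · have hδ := delta_bound hx0 hx1 hξ.le
    have h := P_mul_le (H := e 0) (r1 := 2 * ((1 - x) * (2 - (1 - x))) * M)
      (r2 := 2 * ((1 - x) * (2 - (1 - x))) * M) hap hbp hc hc'
      (I3.trans (le_of_eq (by ring))) (I4.trans (le_of_eq (by ring)))
    have e3 : (1 + ξ.re) / 2 * (2 * ((1 - x) * (2 - (1 - x))) * M) +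
        (1 - ξ.re) / 2 * (2 * ((1 - x) * (2 - (1 - x))) * M) = 2 * (1 - x ^ 2) * M := by ring
    rw [e3] at h
    refine h.trans (mul_le_mul_of_nonneg_right ?_ hM.le)
    linarith

end Pool.Agent.HSix
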