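import Mathlib

/-!
# Six nodes, order two: real inequalities

Three pairs `z_j = a_j ± i b_j`, `r_j = |z_j|²`, `q_j(x) = x² - 2 a_j x + r_j = |x - z_j|²`.
Pair 1 is far right, pair 2 far left.
-/

set_option autoImplicit false

namespace Pool.Agent.HSix

/-- `|x - z|²`. -/
def qq (x a r : ℝ) : ℝ := x ^ 2 - 2 * a * x + r

/-- `ω(x)`. -/
def h0 (x a1 a2 a3 r1 r2 r3 : ℝ) : ℝ := qq x a1 r1 * qq x a2 r2 * qq x a3 r3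

/-- `ω'(x)`. -/
def h1 (x a1 a2 a3 r1 r2 r3 : ℝ) : ℝ :=
  2 * ((x - a1) * (qq x a2 r2 * qq x a3 r3) + (x - a2) * (qq x a1 r1 * qq x a3 r3) +
    (x - a3) * (qq x a1 r1 * qq x a2 r2))

/-- `ω''(x)/2`. -/
def h2 (x a1 a2 a3 r1 r2 r3 : ℝ) : ℝ :=
  qq x a2 r2 * qq x a3 r3 + qq x a1 r1 * qq x a3 r3 + qq x a1 r1 * qq x a2 r2 +
    4 * ((x - a1) * (x - a2) * qq x a3 r3 + (x - a1) * (x - a3) * qq x a2 r2 +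
      (x - a2) * (x - a3) * qq x a1 r1)

theorem qq_nonneg {x a r : ℝ} (h : a ^ 2 ≤ r) : 0 ≤ qq x a r := by
  unfold qq; nlinarith [sq_nonneg (x - a)]

theorem qq_right {x a r : ℝ} (hx0 : 0 ≤ x) (hr1 : r ≤ 1) (ha : (1 + x) / 2 ≤ a) :
    qq x a r ≤ 1 - x := by
  unfold qq
  nlinarith [mul_nonneg hx0 (sub_nonneg.2 ha)]

/-- `q ≤ s² + 2 x p`. -/
theorem qq_le {x a r : ℝ} (hr1 : r ≤ 1) : qq x a r ≤ (1 - x) ^ 2 + 2 * x * (1 - a) := by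
  unfold qq; nlinarith

/-- `q ≤ x u + s²`. -/
theorem qq_le' {x a r : ℝ} (hx1 : x ≤ 1) (hr1 : r ≤ 1) :
    qq x a r ≤ x * (1 - 2 * a + r) + (1 - x) ^ 2 := by
  unfold qq
  nlinarith [mul_nonneg (sub_nonneg.2 hx1) (sub_nonneg.2 hr1)]

theorem qq_le_two {x a r : ℝ} (hx0 : 0 ≤ x) (hr : a ^ 2 ≤ r) (hr1 : r ≤ 1) :
    qq x a r ≤ (1 + x) ^ 2 := by
  unfold qq
  have h : -1 ≤ a := by nlinarith [sq_nonneg (a + 1), sq_nonneg (a - 1)]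
  nlinarith [mul_nonneg hx0 (show 0 ≤ a + 1 by linarith)]

section A

variable {x a1 a2 a3 r1 r2 r3 : ℝ}

/-- `E_+ ≥ u_2 u_3`. -/
theorem h2_one_ge (h1 : a1 ^ 2 ≤ r1) (h2' : a2 ^ 2 ≤ r2) (h3 : a3 ^ 2 ≤ r3)
    (k1 : a1 ≤ 1) (k2 : a2 ≤ 1) (k3 : a3 ≤ 1) :
    (1 - 2 * a2 + r2) * (1 - 2 * a3 + r3) ≤ h2 1 a1 a2 a3 r1 r2 r3 := by
  have e1 : 0 ≤ 1 - 2 * a1 + r1 := by nlinarith [sq_nonneg (1 - a1)]
  have e2 : 0 ≤ 1 - 2 * a2 + r2 := by nlinarith [sq_nonneg (1 - a2)]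
  have e3 : 0 ≤ 1 - 2 * a3 + r3 := by nlinarith [sq_nonneg (1 - a3)]
  have p1 : 0 ≤ 1 - a1 := by linarith
  have p2 : 0 ≤ 1 - a2 := by linarith
  have p3 : 0 ≤ 1 - a3 := by linarith
  have e : h2 1 a1 a2 a3 r1 r2 r3 = (1 - 2 * a2 + r2) * (1 - 2 * a3 + r3) +
      (1 - 2 * a1 + r1) * (1 - 2 * a3 + r3) + (1 - 2 * a1 + r1) * (1 - 2 * a2 + r2) +
      4 * ((1 - a1) * (1 - a2) * (1 - 2 * a3 + r3) + (1 - a1) * (1 - a3) * (1 - 2 * a2 + r2) +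
        (1 - a2) * (1 - a3) * (1 - 2 * a1 + r1)) := by
    unfold h2 qq; ring
  rw [e]
  have := mul_nonneg e1 e3
  have := mul_nonneg e1 e2
  have := mul_nonneg (mul_nonneg p1 p2) e3
  have := mul_nonneg (mul_nonneg p1 p3) e2
  have := mul_nonneg (mul_nonneg p2 p3) e1
  linarith

/-- `E_- ≥ (1+a_1)² (2 + a_2 + a_3)²`. -/
theorem h2_neg_ge (h1 : a1 ^ 2 ≤ r1) (h2' : a2 ^ 2 ≤ r2) (h3 : a3 ^ 2 ≤ r3)
    (k1 : -1 ≤ a1) (k2 : -1 ≤ a2) (k3 : -1 ≤ a3) :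
    (1 + a1) ^ 2 * (2 + a2 + a3) ^ 2 ≤ h2 (-1) a1 a2 a3 r1 r2 r3 := by
  have e1 : (1 + a1) ^ 2 ≤ 1 + 2 * a1 + r1 := by nlinarith
  have e2 : (1 + a2) ^ 2 ≤ 1 + 2 * a2 + r2 := by nlinarith
  have e3 : (1 + a3) ^ 2 ≤ 1 + 2 * a3 + r3 := by nlinarith
  have p1 : 0 ≤ 1 + a1 := by linarith
  have p2 : 0 ≤ 1 + a2 := by linarith
  have p3 : 0 ≤ 1 + a3 := by linarith
  set v1 := 1 + 2 * a1 + r1 with hv1
  set v2 := 1 + 2 * a2 + r2 with hv2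
  set v3 := 1 + 2 * a3 + r3 with hv3
  have e : h2 (-1) a1 a2 a3 r1 r2 r3 = v2 * v3 + v1 * v3 + v1 * v2 +
      4 * ((1 + a1) * (1 + a2) * v3 + (1 + a1) * (1 + a3) * v2 + (1 + a2) * (1 + a3) * v1) := by
    unfold h2 qq; rw [hv1, hv2, hv3]; ring
  rw [e]
  have s1 := sq_nonneg (1 + a1)
  have s2 := sq_nonneg (1 + a2)
  have s3 := sq_nonneg (1 + a3)
  have v10 : 0 ≤ v1 := s1.trans e1
  have v20 : 0 ≤ v2 := s2.trans e2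
  have v30 : 0 ≤ v3 := s3.trans e3
  have t1 : (1 + a1) ^ 2 * (1 + a2) ^ 2 ≤ v1 * v2 := mul_le_mul e1 e2 s2 v10
  have t2 : (1 + a1) ^ 2 * (1 + a3) ^ 2 ≤ v1 * v3 := mul_le_mul e1 e3 s3 v10
  have t3 : 0 ≤ v2 * v3 := mul_nonneg v20 v30
  have t4 := mul_nonneg (mul_nonneg p1 p2) v30
  have t5 := mul_nonneg (mul_nonneg p1 p3) v20
  have t6 : (1 + a2) * (1 + a3) * (1 + a1) ^ 2 ≤ (1 + a2) * (1 + a3) * v1 :=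
    mul_le_mul_of_nonneg_left e1 (mul_nonneg p2 p3)
  have t7 : 0 ≤ (1 + a2) * (1 + a3) * (1 + a1) ^ 2 := mul_nonneg (mul_nonneg p2 p3) s1
  nlinarith

/-- `M ≥ 9/4`. -/
theorem nine_four {M : ℝ} (h1 : a1 ^ 2 ≤ r1) (h2' : a2 ^ 2 ≤ r2) (h3 : a3 ^ 2 ≤ r3)
    (k1 : 1 / 2 ≤ a1) (k1' : a1 ≤ 1) (k2 : -1 ≤ a2) (k2' : a2 ≤ 0) (k3 : -1 ≤ a3) (k3' : a3 ≤ 1)
    (hp : h2 1 a1 a2 a3 r1 r2 r3 ≤ M) (hm : h2 (-1) a1 a2 a3 r1 r2 r3 ≤ M) : 9 / 4 ≤ M := by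
  rcases le_total (-1) (a2 + a3) with h | h
  · -- t ≥ 1
    refine le_trans ?_ ((h2_neg_ge h1 h2' h3 (by linarith) k2 k3).trans hm)
    have e1 : (9:ℝ) / 4 ≤ (1 + a1) ^ 2 := by nlinarith
    have e2 : (1:ℝ) ≤ (2 + a2 + a3) ^ 2 := by nlinarith
    nlinarith
  · refine le_trans ?_ ((h2_one_ge h1 h2' h3 k1' (by linarith) k3').trans hp)
    have e2 : (1 - a2) ^ 2 ≤ 1 - 2 * a2 + r2 := by nlinarith
    have e3 : (1 - a3) ^ 2 ≤ 1 - 2 * a3 + r3 := by nlinarith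
    have e4 : (1 - a2) ^ 2 * (1 - a3) ^ 2 ≤ (1 - 2 * a2 + r2) * (1 - 2 * a3 + r3) :=
      mul_le_mul e2 e3 (sq_nonneg _) ((sq_nonneg _).trans e2)
    refine le_trans ?_ e4
    have e5 : 2 ≤ (1 - a2) * (1 - a3) := by
      nlinarith [mul_nonneg (show 0 ≤ 1 + a2 by linarith) (show 0 ≤ 1 + a3 by linarith)]
    nlinarith

end A

end Pool.Agent.HSix
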