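import Pool.Agent.HSix.RealA

/-!
# Case A (`L_+ ≤ 5`) and case B (`L_+ ≥ 5`)
-/

set_option autoImplicit false

namespace Pool.Agent.HSix

/-- `W = (9/4) ((3+x)/2)²`. -/
noncomputable def WW (x : ℝ) : ℝ := 9 / 4 * ((3 + x) / 2) ^ 2

section CaseA

variable {x a1 a2 a3 r1 r2 r3 M : ℝ}

theorem W_le (g1 : a1 ^ 2 ≤ r1) (g2 : a2 ^ 2 ≤ r2) (g3 : a3 ^ 2 ≤ r3)
    (hx0 : 0 ≤ x) (ha1 : (1 + x) / 2 ≤ a1) (k2 : -1 ≤ a2) (k3 : -1 ≤ a3)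
    (ht : -1 / 2 ≤ a2 + a3) (hm : h2 (-1) a1 a2 a3 r1 r2 r3 ≤ M) : WW x ≤ M := by
  refine le_trans ?_ ((h2_neg_ge g1 g2 g3 (by linarith) k2 k3).trans hm)
  unfold WW
  have e1 : ((3 + x) / 2) ^ 2 ≤ (1 + a1) ^ 2 := by nlinarith
  have e2 : (9:ℝ) / 4 ≤ (2 + a2 + a3) ^ 2 := by nlinarith
  have e3 : 0 ≤ ((3 + x) / 2) ^ 2 := sq_nonneg _
  calc 9 / 4 * ((3 + x) / 2) ^ 2 = ((3 + x) / 2) ^ 2 * (9 / 4) := by ring
    _ ≤ (1 + a1) ^ 2 * (2 + a2 + a3) ^ 2 := mul_le_mul e1 e2 (by norm_num) (sq_nonneg _)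

theorem qq_prod_le (hx0 : 0 ≤ x) (hx1 : x ≤ 1) (g2 : a2 ^ 2 ≤ r2) (g3 : a3 ^ 2 ≤ r3)
    (f2 : r2 ≤ 1) (f3 : r3 ≤ 1) (k2' : a2 ≤ 1) (k3' : a3 ≤ 1) (ht : -1 / 2 ≤ a2 + a3) :
    qq x a2 r2 * qq x a3 r3 ≤ ((1 - x) ^ 2 + 5 / 2 * x) ^ 2 := by
  have c2 := qq_le (x := x) (a := a2) f2
  have c3 := qq_le (x := x) (a := a3) f3
  have n2 := qq_nonneg (x := x) g2
  have n3 := qq_nonneg (x := x) g3
  have p2 : 0 ≤ x * (1 - a2) := mul_nonneg hx0 (by linarith)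
  have p3 : 0 ≤ x * (1 - a3) := mul_nonneg hx0 (by linarith)
  have h1 : qq x a2 r2 * qq x a3 r3 ≤
      ((1 - x) ^ 2 + 2 * x * (1 - a2)) * ((1 - x) ^ 2 + 2 * x * (1 - a3)) :=
    mul_le_mul c2 c3 n3 (n2.trans c2)
  refine h1.trans ?_
  have h2 : ((1 - x) ^ 2 + 2 * x * (1 - a2)) * ((1 - x) ^ 2 + 2 * x * (1 - a3)) ≤
      ((1 - x) ^ 2 + x * ((1 - a2) + (1 - a3))) ^ 2 := by
    nlinarith [sq_nonneg (x * ((1 - a2) - (1 - a3)))]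
  refine h2.trans ?_
  have h3 : x * ((1 - a2) + (1 - a3)) ≤ 5 / 2 * x := by nlinarith
  have h4 : 0 ≤ x * ((1 - a2) + (1 - a3)) := by linarith
  have h5 : 0 ≤ (1 - x) ^ 2 := sq_nonneg _
  exact pow_le_pow_left₀ (by linarith) (by linarith) 2

theorem Q_le_W (hx0 : 0 ≤ x) (hx1 : x ≤ 1) : ((1 - x) ^ 2 + 5 / 2 * x) ^ 2 ≤ 7 / 10 * WW x := by
  obtain ⟨s, rfl⟩ : ∃ s, x = 1 - s := ⟨1 - x, by ring⟩
  have hs0 : 0 ≤ s := by linarith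
  have hs1 : s ≤ 1 := by linarith
  unfold WW
  nlinarith [mul_nonneg hs0 (sub_nonneg.2 hs1), mul_nonneg (mul_nonneg hs0 hs0) (sub_nonneg.2 hs1),
    mul_nonneg (mul_nonneg (mul_nonneg hs0 hs0) hs0) (sub_nonneg.2 hs1)]

theorem poly_u5 (hx0 : 0 ≤ x) (hx1 : x ≤ 1) :
    x * (25 / 4) + ((1 - x) ^ 2 - 2 * x * (1 - x)) * (5 / 2) - 2 * (1 - x) ^ 3 ≤ 7 / 10 * WW x := by
  obtain ⟨s, rfl⟩ : ∃ s, x = 1 - s := ⟨1 - x, by ring⟩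
  have h0 : 0 ≤ s := by linarith
  have h1 : s ≤ 1 := by linarith
  have e1 : 0 ≤ s * (1 - s) := mul_nonneg h0 (by linarith)
  have e2 : 0 ≤ s ^ 3 := by positivity
  unfold WW
  nlinarith

theorem poly_W1 (hx0 : 0 ≤ x) (hx1 : x ≤ 1) :
    (1 + x) * ((1 - x) * (1 + x)) ≤ 7 / 10 * WW x := by
  have e1 : 0 ≤ x * (1 - x) := mul_nonneg hx0 (by linarith)
  have e2 : 0 ≤ x ^ 3 := by positivity
  unfold WW
  nlinarith

theorem poly_W2 (hx0 : 0 ≤ x) (hx1 : x ≤ 1) :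
    (1 + x) ^ 2 * ((1 - x) * (1 + x)) + (1 - x) * (1 + x) ^ 2 ≤ 7 / 10 * WW x := by
  have e1 : 0 ≤ x * (1 - x) := mul_nonneg hx0 (by linarith)
  have e2 : 0 ≤ x ^ 3 := by positivity
  have e3 : 0 ≤ x ^ 4 := by positivity
  unfold WW
  nlinarith [sq_nonneg (x - 1 / 3), mul_nonneg hx0 (sq_nonneg (x - 1 / 3))]

theorem u4_lem {S : ℝ} (hx0 : 0 ≤ x) (hS : S ≤ 5 / 2) (hS0 : 1 ≤ S) (hx1 : x ≤ 1) :
    x * S ^ 2 + ((1 - x) ^ 2 - 2 * x * (1 - x)) * S - 2 * (1 - x) ^ 3 ≤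
      x * (25 / 4) + ((1 - x) ^ 2 - 2 * x * (1 - x)) * (5 / 2) - 2 * (1 - x) ^ 3 := by
  have v1 : 0 ≤ 5 / 2 - S := by linarith
  have v2 : 0 ≤ x * (5 / 2 + S - 2 * (1 - x)) + (1 - x) ^ 2 := by
    have h1 : 0 ≤ 5 / 2 + S - 2 * (1 - x) := by linarith
    have h2 := mul_nonneg hx0 h1
    have h3 := sq_nonneg (1 - x)
    linarith
  have h := mul_nonneg v1 v2
  linarith [show (5 / 2 - S) * (x * (5 / 2 + S - 2 * (1 - x)) + (1 - x) ^ 2) =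
    x * (25 / 4) + ((1 - x) ^ 2 - 2 * x * (1 - x)) * (5 / 2) -
      (x * S ^ 2 + ((1 - x) ^ 2 - 2 * x * (1 - x)) * S) by ring]

theorem u3_lem (hx0 : 0 ≤ x) :
    (x - a2) * ((1 - x) ^ 2 + 2 * x * (1 - a3)) + (x - a3) * ((1 - x) ^ 2 + 2 * x * (1 - a2)) ≤
      x * ((1 - a2) + (1 - a3)) ^ 2 + ((1 - x) ^ 2 - 2 * x * (1 - x)) *
        ((1 - a2) + (1 - a3)) - 2 * (1 - x) ^ 3 := by
  have h := mul_nonneg hx0 (sq_nonneg ((1 - a2) - (1 - a3)))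
  linarith [show x * ((1 - a2) + (1 - a3)) ^ 2 + ((1 - x) ^ 2 - 2 * x * (1 - x)) *
        ((1 - a2) + (1 - a3)) - 2 * (1 - x) ^ 3 -
      ((x - a2) * ((1 - x) ^ 2 + 2 * x * (1 - a3)) + (x - a3) * ((1 - x) ^ 2 + 2 * x * (1 - a2))) =
      x * ((1 - a2) - (1 - a3)) ^ 2 by ring]

/-- `|ω'(x)| ≤ (7/5) s W`. -/
theorem h1_caseA (hx0 : 0 ≤ x) (hx1 : x ≤ 1) (g1 : a1 ^ 2 ≤ r1) (g2 : a2 ^ 2 ≤ r2)
    (g3 : a3 ^ 2 ≤ r3) (f1 : r1 ≤ 1) (f2 : r2 ≤ 1) (f3 : r3 ≤ 1) (ha1 : (1 + x) / 2 ≤ a1)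
    (k1' : a1 ≤ 1) (k2 : -1 ≤ a2) (k2' : a2 ≤ 0) (k3 : -1 ≤ a3) (k3' : a3 ≤ 1)
    (ht : -1 / 2 ≤ a2 + a3) :
    |h1 x a1 a2 a3 r1 r2 r3| ≤ 7 / 5 * (1 - x) * WW x := by
  have hs0 : 0 ≤ 1 - x := by linarith
  have n1 := qq_nonneg (x := x) g1
  have n2 := qq_nonneg (x := x) g2
  have n3 := qq_nonneg (x := x) g3
  have q1s := qq_right (r := r1) hx0 f1 ha1
  have c2 := qq_le (x := x) (a := a2) f2
  have c3 := qq_le (x := x) (a := a3) f3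
  have d2 := qq_le_two hx0 g2 f2
  have hQ := qq_prod_le hx0 hx1 g2 g3 f2 f3 (by linarith) k3' ht
  have hQW := Q_le_W hx0 hx1
  have x2 : 0 ≤ x - a2 := by linarith
  have hx1a : 0 ≤ a1 - x := by linarith
  have n23 := mul_nonneg n2 n3
  have t1 : (a1 - x) * (qq x a2 r2 * qq x a3 r3) ≤ (1 - x) * (qq x a2 r2 * qq x a3 r3) :=
    mul_le_mul_of_nonneg_right (by linarith) n23
  have t1' : 0 ≤ (a1 - x) * (qq x a2 r2 * qq x a3 r3) := mul_nonneg hx1a n23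
  have t2 : 0 ≤ (x - a2) * (qq x a1 r1 * qq x a3 r3) := mul_nonneg x2 (mul_nonneg n1 n3)
  have t2' : (x - a2) * (qq x a1 r1 * qq x a3 r3) ≤ (1 - x) * ((x - a2) * qq x a3 r3) := by
    have := mul_le_mul_of_nonneg_right q1s (mul_nonneg x2 n3)
    calc (x - a2) * (qq x a1 r1 * qq x a3 r3) = qq x a1 r1 * ((x - a2) * qq x a3 r3) := by ring
      _ ≤ _ := this
  unfold h1
  rcases le_total a3 x with h | h
  · -- a3 ≤ x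
    have x3 : 0 ≤ x - a3 := by linarith
    have t3 : 0 ≤ (x - a3) * (qq x a1 r1 * qq x a2 r2) := mul_nonneg x3 (mul_nonneg n1 n2)
    have t3' : (x - a3) * (qq x a1 r1 * qq x a2 r2) ≤ (1 - x) * ((x - a3) * qq x a2 r2) := by
      have := mul_le_mul_of_nonneg_right q1s (mul_nonneg x3 n2)
      calc (x - a3) * (qq x a1 r1 * qq x a2 r2) = qq x a1 r1 * ((x - a3) * qq x a2 r2) := by ring
        _ ≤ _ := this
    have hP : (x - a2) * qq x a3 r3 + (x - a3) * qq x a2 r2 ≤ 7 / 10 * WW x := by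
      have u1 : (x - a2) * qq x a3 r3 ≤ (x - a2) * ((1 - x) ^ 2 + 2 * x * (1 - a3)) :=
        mul_le_mul_of_nonneg_left c3 x2
      have u2 : (x - a3) * qq x a2 r2 ≤ (x - a3) * ((1 - x) ^ 2 + 2 * x * (1 - a2)) :=
        mul_le_mul_of_nonneg_left c2 x3
      have u3 := u3_lem (a2 := a2) (a3 := a3) hx0
      have u4 := u4_lem (S := (1 - a2) + (1 - a3)) hx0 (by linarith) (by linarith) hx1
      have u5 := poly_u5 hx0 hx1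
      linarith
    have hP' := mul_le_mul_of_nonneg_left hP hs0
    have hQ' := mul_le_mul_of_nonneg_left (hQ.trans hQW) hs0
    rw [abs_le]
    constructor
    · linarith
    · linarith
  · -- x ≤ a3
    have x3 : 0 ≤ a3 - x := by linarith
    have q3 : qq x a3 r3 ≤ (1 - x) * (1 + x) := by nlinarith
    have t3 : 0 ≤ (a3 - x) * (qq x a1 r1 * qq x a2 r2) := mul_nonneg x3 (mul_nonneg n1 n2)
    have t3' : (a3 - x) * (qq x a1 r1 * qq x a2 r2) ≤ (1 - x) * ((1 - x) * (1 + x) ^ 2) := by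
      have w1 : qq x a1 r1 * qq x a2 r2 ≤ (1 - x) * (1 + x) ^ 2 := mul_le_mul q1s d2 n2 hs0
      exact mul_le_mul (by linarith) w1 (mul_nonneg n1 n2) hs0
    have t2'' : (1 - x) * ((x - a2) * qq x a3 r3) ≤ (1 - x) * ((1 + x) * ((1 - x) * (1 + x))) := by
      refine mul_le_mul_of_nonneg_left ?_ hs0
      exact mul_le_mul (by linarith) q3 n3 (by linarith)
    have t1'' : qq x a2 r2 * qq x a3 r3 ≤ (1 + x) ^ 2 * ((1 - x) * (1 + x)) :=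
      mul_le_mul d2 q3 n3 (sq_nonneg _)
    have t1''' := mul_le_mul_of_nonneg_left t1'' hs0
    have hW1 := poly_W1 hx0 hx1
    have hW2 := poly_W2 hx0 hx1
    have hW1' := mul_le_mul_of_nonneg_left hW1 hs0
    have hW2' := mul_le_mul_of_nonneg_left hW2 hs0
    rw [abs_le]
    constructor
    · nlinarith
    · nlinarith

end CaseA

end Pool.Agent.HSix
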