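import Pool.Agent.HSix.RealB

/-!
# One-variable inequalities
-/

set_option autoImplicit false

namespace Pool.Agent.HSix

theorem polyA1 {s : ℝ} (h0 : 0 ≤ s) (h1 : s ≤ 1) :
    807 / 100 * (s ^ 2 + 5 / 2 * (1 - s)) ^ 2 ≤ (4 + s) * (2 - s) * (9 / 4 * (2 - s / 2) ^ 2) := by
  have h2 : 0 ≤ 1 - s := by linarith
  have e : (4 + s) * (2 - s) * (9 / 4 * (2 - s / 2) ^ 2) - (807 / 100 * (s ^ 2 + 5 / 2 * (1 - s)) ^ 2) =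
      (345 / 16 : ℝ) * (1 - s) ^ 4 +
      (1065 / 8 : ℝ) * s ^ 1 * (1 - s) ^ 3 +
      (14697 / 80 : ℝ) * s ^ 2 * (1 - s) ^ 2 +
      (3921 / 40 : ℝ) * s ^ 3 * (1 - s) ^ 1 +
      (6897 / 400 : ℝ) * s ^ 4 := by
    ring
  have h3 : 0 ≤ (345 / 16 : ℝ) * (1 - s) ^ 4 +
      (1065 / 8 : ℝ) * s ^ 1 * (1 - s) ^ 3 +
      (14697 / 80 : ℝ) * s ^ 2 * (1 - s) ^ 2 +
      (3921 / 40 : ℝ) * s ^ 3 * (1 - s) ^ 1 +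
      (6897 / 400 : ℝ) * s ^ 4 := by
    positivity
  linarith

theorem polyP1 {s : ℝ} (h0 : 0 ≤ s) (h1 : s ≤ 1) :
    8165 / 1000 * ((1 - s) ^ 2 + 4 / 9 * (8 * (1 - s) * s ^ 2 + s ^ 4)) ≤ (6 - s) * (2 - s) := by
  have h2 : 0 ≤ 1 - s := by linarith
  have e : (6 - s) * (2 - s) - (8165 / 1000 * ((1 - s) ^ 2 + 4 / 9 * (8 * (1 - s) * s ^ 2 + s ^ 4))) =
      (767 / 200 : ℝ) * (1 - s) ^ 7 +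
      (1407 / 40 : ℝ) * s ^ 1 * (1 - s) ^ 6 +
      (84887 / 900 : ℝ) * s ^ 2 * (1 - s) ^ 5 +
      (96503 / 900 : ℝ) * s ^ 3 * (1 - s) ^ 4 +
      (92447 / 1800 : ℝ) * s ^ 4 * (1 - s) ^ 3 +
      (12283 / 1800 : ℝ) * s ^ 5 * (1 - s) ^ 2 +
      (487 / 450 : ℝ) * s ^ 6 * (1 - s) ^ 1 +
      (617 / 450 : ℝ) * s ^ 7 := by
    ring
  have h3 : 0 ≤ (767 / 200 : ℝ) * (1 - s) ^ 7 +
      (1407 / 40 : ℝ) * s ^ 1 * (1 - s) ^ 6 +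
      (84887 / 900 : ℝ) * s ^ 2 * (1 - s) ^ 5 +
      (96503 / 900 : ℝ) * s ^ 3 * (1 - s) ^ 4 +
      (92447 / 1800 : ℝ) * s ^ 4 * (1 - s) ^ 3 +
      (12283 / 1800 : ℝ) * s ^ 5 * (1 - s) ^ 2 +
      (487 / 450 : ℝ) * s ^ 6 * (1 - s) ^ 1 +
      (617 / 450 : ℝ) * s ^ 7 := by
    positivity
  linarith

theorem polyP2 {s : ℝ} (h0 : 0 ≤ s) (h1 : s ≤ 1) :
    807 / 100 * ((1 - s) ^ 2 + 4 / 9 * (8 * (1 - s) * s ^ 2 + s ^ 4)) ≤ (5 + s) * (2 - s) := by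
  have h2 : 0 ≤ 1 - s := by linarith
  have e : (5 + s) * (2 - s) - (807 / 100 * ((1 - s) ^ 2 + 4 / 9 * (8 * (1 - s) * s ^ 2 + s ^ 4))) =
      (193 / 100 : ℝ) * (1 - s) ^ 4 +
      (1043 / 50 : ℝ) * s ^ 1 * (1 - s) ^ 3 +
      (3971 / 300 : ℝ) * s ^ 2 * (1 - s) ^ 2 +
      (23 / 75 : ℝ) * s ^ 3 * (1 - s) ^ 1 +
      (181 / 75 : ℝ) * s ^ 4 := by
    ring
  have h3 : 0 ≤ (193 / 100 : ℝ) * (1 - s) ^ 4 +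
      (1043 / 50 : ℝ) * s ^ 1 * (1 - s) ^ 3 +
      (3971 / 300 : ℝ) * s ^ 2 * (1 - s) ^ 2 +
      (23 / 75 : ℝ) * s ^ 3 * (1 - s) ^ 1 +
      (181 / 75 : ℝ) * s ^ 4 := by
    positivity
  linarith

theorem polyP3 {s : ℝ} (h0 : 0 ≤ s) (h1 : s ≤ 1) :
    10667 / 10 * (s * ((1 - s) ^ 2 + 4 / 9 * (8 * (1 - s) * s ^ 2 + s ^ 4))) ≤ (9 + 26 * s - 3 * s ^ 2) ^ 2 := by
  have h2 : 0 ≤ 1 - s := by linarith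
  have e : (9 + 26 * s - 3 * s ^ 2) ^ 2 - (10667 / 10 * (s * ((1 - s) ^ 2 + 4 / 9 * (8 * (1 - s) * s ^ 2 + s ^ 4)))) =
      (81 : ℝ) * (1 - s) ^ 8 +
      (493 / 10 : ℝ) * s ^ 1 * (1 - s) ^ 7 +
      (1665 / 2 : ℝ) * s ^ 2 * (1 - s) ^ 6 +
      (156613 / 45 : ℝ) * s ^ 3 * (1 - s) ^ 5 +
      (214702 / 45 : ℝ) * s ^ 4 * (1 - s) ^ 4 +
      (294133 / 90 : ℝ) * s ^ 5 * (1 - s) ^ 3 +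
      (203417 / 90 : ℝ) * s ^ 6 * (1 - s) ^ 2 +
      (76366 / 45 : ℝ) * s ^ 7 * (1 - s) ^ 1 +
      (24746 / 45 : ℝ) * s ^ 8 := by
    ring
  have h3 : 0 ≤ (81 : ℝ) * (1 - s) ^ 8 +
      (493 / 10 : ℝ) * s ^ 1 * (1 - s) ^ 7 +
      (1665 / 2 : ℝ) * s ^ 2 * (1 - s) ^ 6 +
      (156613 / 45 : ℝ) * s ^ 3 * (1 - s) ^ 5 +
      (214702 / 45 : ℝ) * s ^ 4 * (1 - s) ^ 4 +
      (294133 / 90 : ℝ) * s ^ 5 * (1 - s) ^ 3 +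
      (203417 / 90 : ℝ) * s ^ 6 * (1 - s) ^ 2 +
      (76366 / 45 : ℝ) * s ^ 7 * (1 - s) ^ 1 +
      (24746 / 45 : ℝ) * s ^ 8 := by
    positivity
  linarith

theorem polyP4 {s : ℝ} (h0 : 0 ≤ s) (h1 : s ≤ 1) :
    1042 * (s * ((1 - s) ^ 2 + 4 / 9 * (8 * (1 - s) * s ^ 2 + s ^ 4))) ≤ (729 : ℝ) := by
  have h2 : 0 ≤ 1 - s := by linarith
  have e : (729 : ℝ) - (1042 * (s * ((1 - s) ^ 2 + 4 / 9 * (8 * (1 - s) * s ^ 2 + s ^ 4)))) =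
      (729 : ℝ) * (1 - s) ^ 6 +
      (3332 : ℝ) * s ^ 1 * (1 - s) ^ 5 +
      (7809 : ℝ) * s ^ 2 * (1 - s) ^ 4 +
      (69742 / 9 : ℝ) * s ^ 3 * (1 - s) ^ 3 +
      (22349 / 9 : ℝ) * s ^ 4 * (1 - s) ^ 2 +
      (206 : ℝ) * s ^ 5 * (1 - s) ^ 1 +
      (2393 / 9 : ℝ) * s ^ 6 := by
    ring
  have h3 : 0 ≤ (729 : ℝ) * (1 - s) ^ 6 +
      (3332 : ℝ) * s ^ 1 * (1 - s) ^ 5 +
      (7809 : ℝ) * s ^ 2 * (1 - s) ^ 4 +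
      (69742 / 9 : ℝ) * s ^ 3 * (1 - s) ^ 3 +
      (22349 / 9 : ℝ) * s ^ 4 * (1 - s) ^ 2 +
      (206 : ℝ) * s ^ 5 * (1 - s) ^ 1 +
      (2393 / 9 : ℝ) * s ^ 6 := by
    positivity
  linarith

theorem polyP5 {s : ℝ} (h0 : 0 ≤ s) (h1 : s ≤ 1) :
    s * ((1 - s) ^ 2 + 4 / 9 * (8 * (1 - s) * s ^ 2 + s ^ 4)) ≤ (1 : ℝ) := by
  have h2 : 0 ≤ 1 - s := by linarith
  have e : (1 : ℝ) - (s * ((1 - s) ^ 2 + 4 / 9 * (8 * (1 - s) * s ^ 2 + s ^ 4))) =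
      (1 : ℝ) * (1 - s) ^ 5 +
      (4 : ℝ) * s ^ 1 * (1 - s) ^ 4 +
      (8 : ℝ) * s ^ 2 * (1 - s) ^ 3 +
      (49 / 9 : ℝ) * s ^ 3 * (1 - s) ^ 2 +
      (13 / 9 : ℝ) * s ^ 4 * (1 - s) ^ 1 +
      (5 / 9 : ℝ) * s ^ 5 := by
    ring
  have h3 : 0 ≤ (1 : ℝ) * (1 - s) ^ 5 +
      (4 : ℝ) * s ^ 1 * (1 - s) ^ 4 +
      (8 : ℝ) * s ^ 2 * (1 - s) ^ 3 +
      (49 / 9 : ℝ) * s ^ 3 * (1 - s) ^ 2 +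
      (13 / 9 : ℝ) * s ^ 4 * (1 - s) ^ 1 +
      (5 / 9 : ℝ) * s ^ 5 := by
    positivity
  linarith

end Pool.Agent.HSix
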