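import Pool.Agent.HSix.RealC

/-!
# The four inequalities in case A and case B, given the bounds of `ω(x)` and `ω'(x)`
-/

set_option autoImplicit false

namespace Pool.Agent.HSix

/-- The four inequalities. `s = 1 - x`, `be = L_+ + s`. -/
def Four (s be M H0 H1 : ℝ) : Prop :=
  1633 / 100 * |H1| ≤ (14 - be) * (be - 4 + 2 * s) * M ∧
  1614 / 100 * |H1| ≤ be * (12 - be) * M ∧
  1633 / 100 * H0 ≤ 2 * (14 - be) * (s * (2 - s)) * M ∧
  1614 / 100 * H0 ≤ 2 * be * (s * (2 - s)) * M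

theorem caseA_four {s be M W Q H0 H1 : ℝ} (h0 : 0 ≤ s) (h1 : s ≤ 1) (hb : 4 + s ≤ be)
    (hb' : be ≤ 5 + s) (hW : W = 9 / 4 * (2 - s / 2) ^ 2) (hQ : Q = (s ^ 2 + 5 / 2 * (1 - s)) ^ 2)
    (hQW : Q ≤ 7 / 10 * W) (hWM : W ≤ M) (hH1 : |H1| ≤ 7 / 5 * s * W) (hH0 : H0 ≤ s * Q) :
    Four s be M H0 H1 := by
  have hW0 : 0 ≤ W := by rw [hW]; positivity
  have hM0 : 0 ≤ M := hW0.trans hWM
  have hH1' : |H1| ≤ 7 / 5 * s * M :=
    hH1.trans (mul_le_mul_of_nonneg_left hWM (by positivity))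
  have c1 : 22862 / 1000 * s ≤ (14 - be) * (be - 4 + 2 * s) := by
    have t0 : 0 ≤ be - 4 - s := by linarith
    have t1 : 0 ≤ 10 - 4 * s - (be - 4 - s) := by linarith
    have t2 := mul_nonneg t0 t1
    have t3 : 0 ≤ s * (1 - s) := mul_nonneg h0 (by linarith)
    nlinarith
  have c2 : 226 / 10 * s ≤ be * (12 - be) := by
    have t0 : 0 ≤ be - 4 - s := by linarith
    have t1 : 0 ≤ 4 - 2 * s - (be - 4 - s) := by linarith
    have t2 := mul_nonneg t0 t1
    have t3 : 0 ≤ s * (1 - s) := mul_nonneg h0 (by linarith)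
    nlinarith
  have d0 : 0 ≤ s * (2 - s) := mul_nonneg h0 (by linarith)
  refine ⟨?_, ?_, ?_, ?_⟩
  · calc 1633 / 100 * |H1| ≤ 1633 / 100 * (7 / 5 * s * M) := by linarith
      _ = (22862 / 1000 * s) * M := by ring
      _ ≤ _ := mul_le_mul_of_nonneg_right c1 hM0
  · calc 1614 / 100 * |H1| ≤ 1614 / 100 * (7 / 5 * s * M) := by linarith
      _ ≤ (226 / 10 * s) * M := by nlinarith [mul_nonneg h0 hM0]
      _ ≤ _ := mul_le_mul_of_nonneg_right c2 hM0
  · have e1 : 1633 / 200 * Q ≤ (14 - be) * (2 - s) * M := by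
      have u1 : (9 - s) * (2 - s) ≤ (14 - be) * (2 - s) :=
        mul_le_mul_of_nonneg_right (by linarith) (by linarith)
      have u2 : 5716 / 1000 ≤ (9 - s) * (2 - s) := by nlinarith
      calc 1633 / 200 * Q ≤ 1633 / 200 * (7 / 10 * W) := by linarith
        _ ≤ 5716 / 1000 * M := by linarith
        _ ≤ (14 - be) * (2 - s) * M := mul_le_mul_of_nonneg_right (u2.trans u1) hM0
    have := mul_le_mul_of_nonneg_left e1 h0
    nlinarith
  · have e1 : 807 / 100 * Q ≤ be * (2 - s) * M := by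
      have u1 : (4 + s) * (2 - s) ≤ be * (2 - s) :=
        mul_le_mul_of_nonneg_right (by linarith) (by linarith)
      have u2 := polyA1 h0 h1
      rw [← hQ, ← hW] at u2
      have u3 : 0 ≤ (4 + s) * (2 - s) := mul_nonneg (by linarith) (by linarith)
      calc 807 / 100 * Q ≤ (4 + s) * (2 - s) * W := u2
        _ ≤ (4 + s) * (2 - s) * M := mul_le_mul_of_nonneg_left hWM u3
        _ ≤ be * (2 - s) * M := mul_le_mul_of_nonneg_right u1 hM0
    have := mul_le_mul_of_nonneg_left e1 h0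
    nlinarith

/-- `ψ`. -/
noncomputable def psi (s : ℝ) : ℝ := (1 - s) ^ 2 + 4 / 9 * (8 * (1 - s) * s ^ 2 + s ^ 4)

theorem psi_nonneg {s : ℝ} (h0 : 0 ≤ s) (h1 : s ≤ 1) : 0 ≤ psi s := by
  have h2 : 0 ≤ 1 - s := by linarith
  unfold psi
  positivity

theorem caseB_four {s be M H0 H1 : ℝ} (h0 : 0 ≤ s) (h1 : s ≤ 1) (hb : 5 + s ≤ be)
    (hb' : be ≤ 8 + s) (hM0 : 0 ≤ M) (hH0 : H0 ≤ s * psi s * M) (hH1 : H1 ^ 2 ≤ 4 * M * H0) :
    Four s be M H0 H1 := by
  have hp := psi_nonneg h0 h1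
  have d0 : 0 ≤ s * (2 - s) := mul_nonneg h0 (by linarith)
  have hH1' : H1 ^ 2 ≤ 4 * (s * psi s) * M ^ 2 := by
    refine hH1.trans ?_
    have := mul_le_mul_of_nonneg_left hH0 (show 0 ≤ 4 * M by positivity)
    linarith
  have c1 : 9 + 26 * s - 3 * s ^ 2 ≤ (14 - be) * (be - 4 + 2 * s) := by
    have t0 : 0 ≤ be - 5 - s := by linarith
    have t1 : 0 ≤ 8 - 4 * s - (be - 5 - s) := by linarith
    have t2 := mul_nonneg t0 t1
    nlinarith
  have c2 : 27 ≤ be * (12 - be) := by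
    have t0 : 0 ≤ be - 5 - s := by linarith
    have t1 : 0 ≤ 3 - (be - 5 - s) := by linarith
    have t2 := mul_nonneg t0 t1
    have t3 : 0 ≤ (3 - (be - 5 - s)) * (1 + 2 * s) := mul_nonneg t1 (by linarith)
    nlinarith
  have g0 : 0 ≤ 9 + 26 * s - 3 * s ^ 2 := by nlinarith
  refine ⟨?_, ?_, ?_, ?_⟩
  · have e1 : 1633 / 100 * |H1| ≤ (9 + 26 * s - 3 * s ^ 2) * M := by
      apply abs_le_of_sq_le_sq' _ (mul_nonneg g0 hM0) |>.2
      rw [mul_pow, sq_abs, mul_pow]
      have u1 := polyP3 h0 h1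
      have u2 : 10667 / 10 * (s * psi s) * M ^ 2 ≤ (9 + 26 * s - 3 * s ^ 2) ^ 2 * M ^ 2 :=
        mul_le_mul_of_nonneg_right u1 (sq_nonneg M)
      have u3 : 0 ≤ s * psi s * M ^ 2 := by positivity
      calc (1633 / 100 : ℝ) ^ 2 * H1 ^ 2 ≤ (1633 / 100) ^ 2 * (4 * (s * psi s) * M ^ 2) := by
            apply mul_le_mul_of_nonneg_left hH1' (by positivity)
        _ = ((1633 / 100) ^ 2 * 4) * (s * psi s * M ^ 2) := by ring
        _ ≤ 10667 / 10 * (s * psi s * M ^ 2) := by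
            apply mul_le_mul_of_nonneg_right _ u3; norm_num
        _ ≤ _ := by linarith
    exact e1.trans (mul_le_mul_of_nonneg_right c1 hM0)
  · have e1 : 1614 / 100 * |H1| ≤ 27 * M := by
      apply abs_le_of_sq_le_sq' _ (by positivity) |>.2
      rw [mul_pow, sq_abs, mul_pow]
      have u1 := polyP4 h0 h1
      have u2 : 1042 * (s * psi s) * M ^ 2 ≤ 729 * M ^ 2 :=
        mul_le_mul_of_nonneg_right u1 (sq_nonneg M)
      have u3 : 0 ≤ s * psi s * M ^ 2 := by positivity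
      calc (1614 / 100 : ℝ) ^ 2 * H1 ^ 2 ≤ (1614 / 100) ^ 2 * (4 * (s * psi s) * M ^ 2) := by
            apply mul_le_mul_of_nonneg_left hH1' (by positivity)
        _ = ((1614 / 100) ^ 2 * 4) * (s * psi s * M ^ 2) := by ring
        _ ≤ 1042 * (s * psi s * M ^ 2) := by
            apply mul_le_mul_of_nonneg_right _ u3; norm_num
        _ ≤ 27 ^ 2 * M ^ 2 := by linarith
    exact e1.trans (mul_le_mul_of_nonneg_right c2 hM0)
  · have e1 : 8165 / 1000 * psi s ≤ (14 - be) * (2 - s) := by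
      have u1 : (6 - s) * (2 - s) ≤ (14 - be) * (2 - s) :=
        mul_le_mul_of_nonneg_right (by linarith) (by linarith)
      exact (polyP1 h0 h1).trans u1
    have e2 := mul_le_mul_of_nonneg_right e1 (mul_nonneg h0 hM0)
    nlinarith
  · have e1 : 807 / 100 * psi s ≤ be * (2 - s) := by
      have u1 : (5 + s) * (2 - s) ≤ be * (2 - s) :=
        mul_le_mul_of_nonneg_right (by linarith) (by linarith)
      exact (polyP2 h0 h1).trans u1
    have e2 := mul_le_mul_of_nonneg_right e1 (mul_nonneg h0 hM0)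
    nlinarith

/-- Taylor bound of order two. -/
theorem taylor2 {f f' f'' : ℝ → ℝ} (hf : ∀ y, HasDerivAt f (f' y) y)
    (hf' : ∀ y, HasDerivAt f' (f'' y) y) {a b M : ℝ} (hM : ∀ y ∈ Set.Icc a b, f'' y ≤ 2 * M)
    {x y : ℝ} (hx : x ∈ Set.Icc a b) (hy : y ∈ Set.Icc a b) (hxy : x ≤ y) :
    f' y - f' x ≤ 2 * M * (y - x) := by
  have hm : MonotoneOn (fun t => 2 * M * t - f' t) (Set.Icc a b) := by
    have hd : ∀ t, HasDerivAt (fun t => 2 * M * t - f' t) (2 * M - f'' t) t := fun t => by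
      simpa using ((hasDerivAt_id t).const_mul (2 * M)).fun_sub (hf' t)
    apply monotoneOn_of_deriv_nonneg (convex_Icc a b)
    · exact fun t _ => (hd t).continuousAt.continuousWithinAt
    · exact fun t _ => (hd t).differentiableAt.differentiableWithinAt
    · intro t ht
      rw [interior_Icc] at ht
      rw [(hd t).deriv]
      have := hM t ⟨ht.1.le, ht.2.le⟩
      linarith
  have := hm hx hy hxy
  simp only at this
  linarith

theorem taylor2' {f f' f'' : ℝ → ℝ} (hf : ∀ y, HasDerivAt f (f' y) y)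
    (hf' : ∀ y, HasDerivAt f' (f'' y) y) {a b M : ℝ} (hM : ∀ y ∈ Set.Icc a b, f'' y ≤ 2 * M)
    {x y : ℝ} (hx : x ∈ Set.Icc a b) (hy : y ∈ Set.Icc a b) :
    f y ≤ f x + f' x * (y - x) + M * (y - x) ^ 2 := by
  have hd : ∀ t, HasDerivAt (fun t => f' x * (t - x) + M * (t - x) ^ 2 - f t)
      (f' x + 2 * M * (t - x) - f' t) t := fun t => by
    have h1 : HasDerivAt (fun t : ℝ => t - x) 1 t := (hasDerivAt_id t).sub_const x
    have h2 := ((h1.const_mul (f' x)).fun_add ((h1.fun_pow 2).const_mul M)).fun_sub (hf t)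
    refine h2.congr_deriv ?_
    simp
    ring
  rcases le_total x y with h | h
  · have hm : MonotoneOn (fun t => f' x * (t - x) + M * (t - x) ^ 2 - f t) (Set.Icc x b) := by
      apply monotoneOn_of_deriv_nonneg (convex_Icc x b)
      · exact fun t _ => (hd t).continuousAt.continuousWithinAt
      · exact fun t _ => (hd t).differentiableAt.differentiableWithinAt
      · intro t ht
        rw [interior_Icc] at ht
        rw [(hd t).deriv]
        have := taylor2 hf hf' hM hx ⟨hx.1.trans ht.1.le, ht.2.le⟩ ht.1.le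
        linarith
    have := hm ⟨le_rfl, hx.2⟩ ⟨h, hy.2⟩ h
    simp only [sub_self] at this
    linarith
  · have hm : AntitoneOn (fun t => f' x * (t - x) + M * (t - x) ^ 2 - f t) (Set.Icc a x) := by
      apply antitoneOn_of_deriv_nonpos (convex_Icc a x)
      · exact fun t _ => (hd t).continuousAt.continuousWithinAt
      · exact fun t _ => (hd t).differentiableAt.differentiableWithinAt
      · intro t ht
        rw [interior_Icc] at ht
        rw [(hd t).deriv]
        have := taylor2 hf hf' hM ⟨ht.1.le, ht.2.le.trans hx.2⟩ hx ht.2.le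
        linarith
    have := hm ⟨hy.1, h⟩ ⟨hx.1, le_rfl⟩ h
    simp only [sub_self] at this
    linarith

/-- `ω ≥ 0` on the interval, `ω'' ≤ 2M` there, `ω'(b) ≥ 0`, `ω(x) ≤ M (x - a)²`. -/
theorem sq_deriv_le {f f' f'' : ℝ → ℝ} (hf : ∀ y, HasDerivAt f (f' y) y)
    (hf' : ∀ y, HasDerivAt f' (f'' y) y) {a b M : ℝ} (hM0 : 0 < M)
    (hM : ∀ y ∈ Set.Icc a b, f'' y ≤ 2 * M) (h0 : ∀ y ∈ Set.Icc a b, 0 ≤ f y)
    {x : ℝ} (hx : x ∈ Set.Icc a b) (hax : a < x) (hb : 0 ≤ f' b) (ha : f x ≤ M * (x - a) ^ 2) :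
    f' x ^ 2 ≤ 4 * M * f x := by
  have hab : a ≤ b := hx.1.trans hx.2
  have key : ∀ y ∈ Set.Icc a b, y = x - f' x / (2 * M) → f' x ^ 2 ≤ 4 * M * f x := by
    intro y hy hyx
    have h1 := (h0 y hy).trans (taylor2' hf hf' hM hx hy)
    have h2 : y - x = - (f' x / (2 * M)) := by rw [hyx]; ring
    rw [h2] at h1
    have h3 : f x + f' x * -(f' x / (2 * M)) + M * (-(f' x / (2 * M))) ^ 2 =
        f x - f' x ^ 2 / (4 * M) := by
      field_simp
      ring
    rw [h3] at h1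
    have h4 : f' x ^ 2 / (4 * M) ≤ f x := by linarith
    rw [div_le_iff₀ (by positivity)] at h4
    linarith
  rcases le_total (f' x) 0 with h | h
  · -- step to the right
    have h1 := taylor2 hf hf' hM hx ⟨hab, le_rfl⟩ hx.2
    refine key _ ⟨?_, ?_⟩ rfl
    · have : f' x / (2 * M) ≤ 0 := div_nonpos_of_nonpos_of_nonneg h (by positivity)
      linarith [hx.1]
    · have : -(b - x) ≤ f' x / (2 * M) := by
        rw [le_div_iff₀ (by positivity)]
        linarith
      linarith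
  · rcases le_or_gt (f' x) (2 * M * (x - a)) with h5 | h5
    · refine key _ ⟨?_, ?_⟩ rfl
      · have : f' x / (2 * M) ≤ x - a := by
          rw [div_le_iff₀ (by positivity)]
          linarith
        linarith
      · have : 0 ≤ f' x / (2 * M) := by positivity
        linarith [hx.2]
    · have h6 := (h0 a ⟨le_rfl, hab⟩).trans (taylor2' hf hf' hM hx ⟨le_rfl, hab⟩)
      have h7 : 0 < x - a := by linarith
      have h8 : f' x * (x - a) ≤ 2 * M * (x - a) * (x - a) := by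
        have e : M * (a - x) ^ 2 = M * (x - a) ^ 2 := by ring
        nlinarith
      exact absurd h8 (not_le.2 (mul_lt_mul_of_pos_right h5 h7))

end Pool.Agent.HSix
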